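import Mathlib

-- merged part: Pool.Agent.Work.MP_d893f2_al.Layer
section
set_option autoImplicit false

namespace Pool.Agent.Work.MP_d893f2_al

/-- A gluing datum between two elementary abelian 2-groups: a condition `Phi u T`
(the subgroup `T` is large enough to sit below `u`) and a set-theoretic section. -/
structure Layer (A B : Type) [AddCommGroup A] [AddCommGroup B] where
  Phi : A → AddSubgroup B → Prop
  sec : A → B
  mono : ∀ {u : A} {T T' : AddSubgroup B}, T ≤ T' → Phi u T → Phi u T'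
  inf : ∀ {u : A} {T T' : AddSubgroup B}, Phi u T → Phi u T' → Phi u (T ⊓ T')
  zero : ∀ T : AddSubgroup B, Phi 0 T
  sec_zero : sec 0 = 0
  add : ∀ {u u' : A} {T : AddSubgroup B}, Phi u T → Phi u' T →
    Phi (u + u') T ∧ sec (u + u') - sec u - sec u' ∈ T
  two : ∀ u : A, u + u = 0

namespace Layer

variable {A B : Type} [AddCommGroup A] [AddCommGroup B] (l : Layer A B)

include l in
theorem neg_eq (u : A) : -u = u := by
  have := l.two u
  exact neg_eq_of_add_eq_zero_left this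

/-- all lifts that are admissible over `T` -/
def lift (T : AddSubgroup B) : AddSubgroup (A × B) where
  carrier := {p | l.Phi p.1 T ∧ p.2 - l.sec p.1 ∈ T}
  zero_mem' := ⟨l.zero T, by simp [l.sec_zero]⟩
  add_mem' := by
    rintro ⟨u, t⟩ ⟨u', t'⟩ ⟨h1, h2⟩ ⟨h3, h4⟩
    obtain ⟨h5, h6⟩ := l.add h1 h3
    refine ⟨h5, ?_⟩
    have : t + t' - l.sec (u + u') =
        (t - l.sec u) + (t' - l.sec u') - (l.sec (u + u') - l.sec u - l.sec u') := by abel
    show t + t' - l.sec (u + u') ∈ T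
    rw [this]
    exact T.sub_mem (T.add_mem h2 h4) h6
  neg_mem' := by
    rintro ⟨u, t⟩ ⟨h1, h2⟩
    obtain ⟨-, h6⟩ := l.add h1 h1
    refine ⟨?_, ?_⟩
    · show l.Phi (-u) T
      rw [l.neg_eq]; exact h1
    · show -t - l.sec (-u) ∈ T
      rw [l.neg_eq]
      rw [l.two, l.sec_zero] at h6
      have : -t - l.sec u = -(t - l.sec u) + (0 - l.sec u - l.sec u) := by abel
      rw [this]
      exact T.add_mem (T.neg_mem h2) h6

theorem mem_lift {T : AddSubgroup B} {u : A} {t : B} :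
    (u, t) ∈ l.lift T ↔ l.Phi u T ∧ t - l.sec u ∈ T := Iff.rfl

theorem lift_mono {T T' : AddSubgroup B} (h : T ≤ T') : l.lift T ≤ l.lift T' := by
  rintro ⟨u, t⟩ ⟨h1, h2⟩
  exact ⟨l.mono h h1, h h2⟩

theorem zero_mem_lift {T : AddSubgroup B} {t : B} : ((0 : A), t) ∈ l.lift T ↔ t ∈ T := by
  rw [mem_lift, l.sec_zero, sub_zero]
  exact ⟨fun h => h.2, fun h => ⟨l.zero T, h⟩⟩

theorem mem_lift_inf {T T' : AddSubgroup B} {p : A × B} (h : p ∈ l.lift T) (h' : p ∈ l.lift T') :
    p ∈ l.lift (T ⊓ T') :=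
  ⟨l.inf h.1 h'.1, ⟨h.2, h'.2⟩⟩

end Layer

section Three

variable {A B C : Type} [AddCommGroup A] [AddCommGroup B] [AddCommGroup C]

/-- middle layer of a subgroup -/
def mid (x : AddSubgroup (A × B × C)) : AddSubgroup B where
  carrier := {t | ∃ s, ((0 : A), t, s) ∈ x}
  zero_mem' := ⟨0, x.zero_mem⟩
  add_mem' := by
    rintro t t' ⟨s, h⟩ ⟨s', h'⟩
    exact ⟨s + s', by simpa using x.add_mem h h'⟩
  neg_mem' := by
    rintro t ⟨s, h⟩
    exact ⟨-s, by simpa using x.neg_mem h⟩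

/-- bottom layer of a subgroup -/
def bot3 (x : AddSubgroup (A × B × C)) : AddSubgroup C where
  carrier := {s | ((0 : A), (0 : B), s) ∈ x}
  zero_mem' := x.zero_mem
  add_mem' := by
    intro s s' h h'
    show ((0 : A), (0 : B), s + s') ∈ x
    simpa using x.add_mem h h'
  neg_mem' := by
    intro s h
    show ((0 : A), (0 : B), -s) ∈ x
    simpa using x.neg_mem h

theorem mem_mid {x : AddSubgroup (A × B × C)} {t : B} : t ∈ mid x ↔ ∃ s, ((0 : A), t, s) ∈ x :=
  Iff.rfl

theorem mem_bot3 {x : AddSubgroup (A × B × C)} {s : C} :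
    s ∈ bot3 x ↔ ((0 : A), (0 : B), s) ∈ x := Iff.rfl

theorem mid_mono {x y : AddSubgroup (A × B × C)} (h : x ≤ y) : mid x ≤ mid y := by
  rintro t ⟨s, hs⟩
  exact ⟨s, h hs⟩

theorem bot3_mono {x y : AddSubgroup (A × B × C)} (h : x ≤ y) : bot3 x ≤ bot3 y :=
  fun _ hs => h hs

variable (a : Layer A B) (b : Layer B C)

/-- membership in the three-layer lattice -/
def InL (x : AddSubgroup (A × B × C)) : Prop :=
  (∀ u t s, (u, t, s) ∈ x → (u, t) ∈ a.lift (mid x)) ∧
  (∀ t s, ((0 : A), t, s) ∈ x → (t, s) ∈ b.lift (bot3 x))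

variable {a b}

theorem sec_mem {x : AddSubgroup (A × B × C)} (hx : InL a b x) {t : B} (ht : t ∈ mid x) :
    ((0 : A), t, b.sec t) ∈ x := by
  obtain ⟨s, hs⟩ := ht
  have h := (hx.2 t s hs).2
  have h2 := x.sub_mem hs h
  simpa using h2

theorem InL.inf {x y : AddSubgroup (A × B × C)} (hx : InL a b x) (hy : InL a b y) :
    InL a b (x ⊓ y) := by
  refine ⟨?_, ?_⟩
  · intro u t s h
    have h1 := a.mem_lift_inf (hx.1 u t s h.1) (hy.1 u t s h.2)
    refine a.lift_mono ?_ h1
    intro t' ht'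
    exact ⟨b.sec t', sec_mem hx ht'.1, sec_mem hy ht'.2⟩
  · intro t s h
    have h1 := b.mem_lift_inf (hx.2 t s h.1) (hy.2 t s h.2)
    refine b.lift_mono ?_ h1
    intro s' hs'
    exact ⟨hs'.1, hs'.2⟩

theorem InL.sup {x y : AddSubgroup (A × B × C)} (hx : InL a b x) (hy : InL a b y) :
    InL a b (x ⊔ y) := by
  refine ⟨?_, ?_⟩
  · intro u t s h
    obtain ⟨⟨u1, t1, s1⟩, h1, ⟨u2, t2, s2⟩, h2, h3⟩ := AddSubgroup.mem_sup.1 h
    simp only [Prod.mk_add_mk, Prod.mk.injEq] at h3
    obtain ⟨rfl, rfl, rfl⟩ := h3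
    have h4 := a.lift_mono (mid_mono (le_sup_left : x ≤ x ⊔ y)) (hx.1 _ _ _ h1)
    have h5 := a.lift_mono (mid_mono (le_sup_right : y ≤ x ⊔ y)) (hy.1 _ _ _ h2)
    exact (a.lift _).add_mem h4 h5
  · intro t s h
    obtain ⟨⟨u1, t1, s1⟩, h1, ⟨u2, t2, s2⟩, h2, h3⟩ := AddSubgroup.mem_sup.1 h
    simp only [Prod.mk_add_mk, Prod.mk.injEq] at h3
    obtain ⟨hu, rfl, rfl⟩ := h3
    have hu2 : u2 = -u1 := by rw [eq_neg_iff_add_eq_zero, add_comm]; exact hu
    subst hu2
    have h4 := (hx.1 _ _ _ h1).2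
    have h5 := (hy.1 _ _ _ (y.neg_mem h2)).2
    simp only [neg_neg] at h4 h5
    have h6 := sec_mem hx h4
    have h7 := sec_mem hy h5
    have h8 := b.lift_mono (bot3_mono (le_sup_left : x ≤ x ⊔ y)) (hx.2 _ _ h6)
    have h9 := b.lift_mono (bot3_mono (le_sup_right : y ≤ x ⊔ y)) (hy.2 _ _ h7)
    set p := t1 - a.sec u1 with hp
    set q := -t2 - a.sec u1 with hq
    have h10 : ((0 : A), (0 : B), s1 + s2 - b.sec p + b.sec q) ∈ x ⊔ y := by
      have e : ((0 : A), (0 : B), s1 + s2 - b.sec p + b.sec q) =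
          ((0 : A), t1 + t2, s1 + s2) - ((0 : A), p, b.sec p) + ((0 : A), q, b.sec q) := by
        simp only [Prod.mk_add_mk, Prod.mk_sub_mk, Prod.mk.injEq, hp, hq]
        refine ⟨by simp, by abel, trivial⟩
      rw [e]
      exact (x ⊔ y).add_mem ((x ⊔ y).sub_mem h ((le_sup_left : x ≤ x ⊔ y) h6))
        ((le_sup_right : y ≤ x ⊔ y) h7)
    have h11 : ((0 : B), s1 + s2 - b.sec p + b.sec q) ∈ b.lift (bot3 (x ⊔ y)) :=
      b.zero_mem_lift.2 h10
    have e2 : (t1 + t2, s1 + s2) =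
        ((0 : B), s1 + s2 - b.sec p + b.sec q) + (p, b.sec p) - (q, b.sec q) := by
      simp only [Prod.mk_add_mk, Prod.mk_sub_mk, Prod.mk.injEq, hp, hq]
      exact ⟨by abel, by abel⟩
    rw [e2]
    exact (b.lift _).sub_mem ((b.lift _).add_mem h11 h8) h9

variable (b) in
/-- saturation of the middle layer -/
def sat (x : AddSubgroup (A × B × C)) : AddSubgroup (A × B × C) :=
  x ⊔ (⊥ : AddSubgroup A).prod (b.lift (bot3 x))

theorem mem_sat {x : AddSubgroup (A × B × C)} {v : A × B × C} :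
    v ∈ sat b x ↔ ∃ w ∈ b.lift (bot3 x), (v.1, v.2 - w) ∈ x := by
  constructor
  · intro h
    obtain ⟨y, hy, ⟨u, w⟩, hz, rfl⟩ := AddSubgroup.mem_sup.1 h
    rw [AddSubgroup.mem_prod] at hz
    have hu : u = 0 := by simpa using hz.1
    subst hu
    exact ⟨w, hz.2, by simpa using hy⟩
  · rintro ⟨w, hw, h⟩
    refine AddSubgroup.mem_sup.2 ⟨_, h, (0, w), ?_, by simp⟩
    rw [AddSubgroup.mem_prod]
    exact ⟨by simp, hw⟩

theorem le_sat (x : AddSubgroup (A × B × C)) : x ≤ sat b x := le_sup_left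

theorem zero_mem_sat {x : AddSubgroup (A × B × C)} (hx : InL a b x) {w : B × C} :
    ((0 : A), w) ∈ sat b x ↔ w ∈ b.lift (bot3 x) := by
  rw [mem_sat]
  constructor
  · rintro ⟨w', hw', h⟩
    have h1 : w - w' ∈ b.lift (bot3 x) := hx.2 (w - w').1 (w - w').2 h
    have := (b.lift _).add_mem h1 hw'
    simpa using this
  · intro h
    refine ⟨w, h, ?_⟩
    simp only [sub_self]
    exact x.zero_mem

theorem bot3_sat {x : AddSubgroup (A × B × C)} (hx : InL a b x) : bot3 (sat b x) = bot3 x := by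
  ext s
  rw [mem_bot3, zero_mem_sat hx, b.zero_mem_lift]

theorem InL.sat {x : AddSubgroup (A × B × C)} (hx : InL a b x) : InL a b (sat b x) := by
  refine ⟨?_, ?_⟩
  · intro u t s h
    obtain ⟨⟨t', s'⟩, hw, h1⟩ := mem_sat.1 h
    have h2 := a.lift_mono (mid_mono (le_sat (b := b) x)) (hx.1 u (t - t') (s - s') h1)
    have h3 : ((0 : A), t') ∈ a.lift (mid (MP_d893f2_al.sat b x)) :=
      a.zero_mem_lift.2 ⟨s', (zero_mem_sat hx).2 hw⟩
    have := (a.lift _).add_mem h2 h3
    simpa using this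
  · intro t s h
    rw [bot3_sat hx]
    exact (zero_mem_sat hx).1 h

theorem sat_mono {x y : AddSubgroup (A × B × C)} (h : x ≤ y) : sat b x ≤ sat b y := by
  intro v hv
  obtain ⟨w, hw, h1⟩ := mem_sat.1 hv
  exact mem_sat.2 ⟨w, b.lift_mono (bot3_mono h) hw, h h1⟩

theorem sat_sat {x : AddSubgroup (A × B × C)} (hx : InL a b x) : sat b (sat b x) = sat b x := by
  apply le_antisymm _ (le_sat _)
  intro v hv
  obtain ⟨w, hw, h1⟩ := mem_sat.1 hv
  rw [bot3_sat hx] at hw
  have h2 := (zero_mem_sat hx).2 hw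
  have := (sat b x).add_mem h1 h2
  simpa using this

theorem sat_inf {x y : AddSubgroup (A × B × C)} (hx : InL a b x) (hy : InL a b y) :
    sat b x ⊓ sat b y ≤ sat b (x ⊓ y) := by
  rintro ⟨u, t, s⟩ ⟨h1, h2⟩
  have key : ∀ z : AddSubgroup (A × B × C), InL a b z → (u, t, s) ∈ sat b z →
      b.Phi (t - a.sec u) (bot3 z) ∧ (u, a.sec u, s - b.sec (t - a.sec u)) ∈ z := by
    intro z hz h
    obtain ⟨⟨t', s'⟩, hw, h3⟩ := mem_sat.1 h
    have h4 := (hz.1 u (t - t') (s - s') h3).2
    have h5 := sec_mem hz h4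
    have h6 := hz.2 _ _ h5
    have h7 := (b.lift _).add_mem h6 hw
    have e : t - t' - a.sec u + t' = t - a.sec u := by abel
    simp only [Prod.mk_add_mk, e] at h7
    refine ⟨h7.1, ?_⟩
    have h8 : ((0 : A), (0 : B), b.sec (t - t' - a.sec u) + s' - b.sec (t - a.sec u)) ∈ z := h7.2
    have h9 := z.add_mem (z.sub_mem h3 h5) h8
    simp only [Prod.mk_add_mk, Prod.mk_sub_mk] at h9
    convert h9 using 2
    · simp
    · congr 1
      · abel
      · abel
  obtain ⟨k1, k2⟩ := key x hx h1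
  obtain ⟨k3, k4⟩ := key y hy h2
  refine mem_sat.2 ⟨(t - a.sec u, b.sec (t - a.sec u)), ?_, ?_⟩
  · refine b.lift_mono (T := bot3 x ⊓ bot3 y) (T' := bot3 (x ⊓ y))
      (fun s' hs' => mem_bot3.2 ⟨hs'.1, hs'.2⟩) ?_
    exact ⟨b.inf k1 k3, by simp⟩
  · simp only [Prod.mk_sub_mk, sub_sub_cancel]
    exact ⟨k2, k4⟩

end Three

end Pool.Agent.Work.MP_d893f2_al
end

-- merged part: Pool.Agent.Work.MP_d893f2_al.Lat
section
set_option autoImplicit false

namespace Pool.Agent.Work.MP_d893f2_al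

theorem setoid_sup_comp {β : Type*} (r s : Setoid β)
    (hc : ∀ x y, (∃ c, r.r x c ∧ s.r c y) ↔ (∃ c, s.r x c ∧ r.r c y)) {x y : β}
    (h : (r ⊔ s).r x y) : ∃ c, r.r x c ∧ s.r c y := by
  let t : Setoid β :=
    { r := fun x y => ∃ c, r.r x c ∧ s.r c y
      iseqv :=
        { refl := fun x => ⟨x, r.refl x, s.refl x⟩
          symm := by
            rintro x y ⟨c, h1, h2⟩
            exact (hc y x).2 ⟨c, s.symm h2, r.symm h1⟩
          trans := by
            rintro x y z ⟨c, h1, h2⟩ ⟨d, h3, h4⟩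
            obtain ⟨e, h5, h6⟩ := (hc c d).2 ⟨y, h2, h3⟩
            exact ⟨e, r.trans h1 h5, s.trans h6 h4⟩ } }
  have h1 : r ≤ t := fun x y h => ⟨y, h, s.refl y⟩
  have h2 : s ≤ t := fun x y h => ⟨x, r.refl x, h⟩
  exact (sup_le h1 h2 : r ⊔ s ≤ t) h

section Rep

variable {V : Type} [AddCommGroup V]

/-- coset relation of a subgroup -/
def cosetRel (x : AddSubgroup V) : Setoid V where
  r p q := p - q ∈ x
  iseqv :=
    { refl := fun p => by simp
      symm := fun {p q} h => by simpa using x.neg_mem h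
      trans := fun {p q r} h h' => by simpa using x.add_mem h h' }

theorem cosetRel_iff {x : AddSubgroup V} {p q : V} : (cosetRel x).r p q ↔ p - q ∈ x := Iff.rfl

theorem cosetRel_mono {x y : AddSubgroup V} (h : x ≤ y) : cosetRel x ≤ cosetRel y :=
  fun _ _ hp => h hp

theorem cosetRel_sup (x y : AddSubgroup V) : cosetRel (x ⊔ y) = cosetRel x ⊔ cosetRel y := by
  apply le_antisymm
  · intro p q h
    obtain ⟨v, hv, w, hw, e⟩ := AddSubgroup.mem_sup.1 (show p - q ∈ x ⊔ y from h)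
    have h1 : (cosetRel x).r p (p - v) := by rw [cosetRel_iff]; simpa using hv
    have h2 : (cosetRel y).r (p - v) q := by
      rw [cosetRel_iff]
      have : p - v - q = w := by
        have : p - v - q = (p - q) - v := by abel
        rw [this, ← e]; abel
      rw [this]; exact hw
    exact (cosetRel x ⊔ cosetRel y).trans ((le_sup_left : cosetRel x ≤ _) h1)
      ((le_sup_right : cosetRel y ≤ _) h2)
  · exact sup_le (cosetRel_mono le_sup_left) (cosetRel_mono le_sup_right)

theorem cosetRel_inf (x y : AddSubgroup V) : cosetRel (x ⊓ y) = cosetRel x ⊓ cosetRel y := by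
  apply le_antisymm
  · exact le_inf (cosetRel_mono inf_le_left) (cosetRel_mono inf_le_right)
  · intro p q h
    exact ⟨(inf_le_left : cosetRel x ⊓ cosetRel y ≤ _) h,
      (inf_le_right : cosetRel x ⊓ cosetRel y ≤ _) h⟩

theorem cosetRel_inj {x y : AddSubgroup V} (h : cosetRel x = cosetRel y) : x = y := by
  ext v
  have : (cosetRel x).r v 0 ↔ (cosetRel y).r v 0 := by rw [h]
  simpa [cosetRel_iff] using this

theorem cosetRel_comm (x y : AddSubgroup V) (p q : V)
    (h : ∃ c, (cosetRel x).r p c ∧ (cosetRel y).r c q) :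
    ∃ c, (cosetRel y).r p c ∧ (cosetRel x).r c q := by
  obtain ⟨c, h1, h2⟩ := h
  refine ⟨p - c + q, ?_, ?_⟩
  · rw [cosetRel_iff] at *
    convert h2 using 1; abel
  · rw [cosetRel_iff] at *
    convert h1 using 1; abel

end Rep

section Three

variable {A B C : Type} [AddCommGroup A] [AddCommGroup B] [AddCommGroup C]
variable (a : Layer A B) (b : Layer B C)

/-- the three-layer lattice -/
def LL : Sublattice (AddSubgroup (A × B × C)) where
  carrier := {x | InL a b x}
  supClosed' := fun _ hx _ hy => InL.sup hx hy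
  infClosed' := fun _ hx _ hy => InL.inf hx hy

/-- its representation by cosets -/
def repL : LatticeHom (LL a b) (Setoid (A × B × C)) where
  toFun x := cosetRel x.1
  map_sup' x y := cosetRel_sup x.1 y.1
  map_inf' x y := cosetRel_inf x.1 y.1

theorem repL_inj : Function.Injective (repL a b) := fun _ _ h => Subtype.ext (cosetRel_inj h)

/-- saturation as a closure operator -/
def clo : ClosureOperator (LL a b) :=
  ClosureOperator.mk' (fun x => ⟨sat b x.1, InL.sat x.2⟩) (fun _ _ h => sat_mono h)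
    (fun x => le_sat x.1) (fun x => (sat_sat x.2).le)

/-- the quotient lattice -/
def MM : Type := (clo a b).Closeds

instance : PartialOrder (MM a b) := inferInstanceAs (PartialOrder (clo a b).Closeds)

/-- the Galois insertion onto the quotient -/
def giM : GaloisInsertion (α := LL a b) (β := MM a b) (clo a b).toCloseds (fun x => x.1) :=
  (clo a b).gi

noncomputable instance : Lattice (MM a b) := (giM a b).liftLattice

/-- the quotient map -/
noncomputable def quotM : LatticeHom (LL a b) (MM a b) where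
  toFun := (clo a b).toCloseds
  map_sup' x y := (giM a b).gc.l_sup
  map_inf' x y := by
    apply le_antisymm
    · exact le_inf ((giM a b).gc.monotone_l inf_le_left) ((giM a b).gc.monotone_l inf_le_right)
    · refine (giM a b).u_le_u_iff.1 ?_
      refine ((giM a b).gc.u_inf).le.trans ?_
      exact sat_inf x.2 y.2

theorem quotM_surj : Function.Surjective (quotM a b) := (giM a b).l_surjective

theorem quotM_le_iff (x y : LL a b) : quotM a b x ≤ quotM a b y ↔ x.1 ≤ sat b y.1 :=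
  (giM a b).gc x (quotM a b y)

end Three

/-- A system of relations attached to subgroups, coming from a representation of the quotient. -/
structure RelSys {A B C : Type} [AddCommGroup A] [AddCommGroup B] [AddCommGroup C]
    (a : Layer A B) (b : Layer B C) (β : Type*) where
  R : AddSubgroup (A × B × C) → β → β → Prop
  symm : ∀ {x p q}, R x p q → R x q p
  trans : ∀ {x p q r}, R x p q → R x q r → R x p r
  mono : ∀ {x y p q}, InL a b y → x ≤ sat b y → R x p q → R y p q
  inf : ∀ {x y p q}, R x p q → R y p q → R (x ⊓ y) p q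
  perm : ∀ {x y p q r}, R x p q → R y q r → ∃ d, R y p d ∧ R x d r
  split : ∀ {x y z p q}, InL a b y → InL a b z → x ≤ sat b (y ⊔ z) → R x p q →
    ∃ c, R y p c ∧ R z c q
  sep : ∀ {x y}, InL a b x → InL a b y → ¬ x ≤ sat b y → ∃ p q, R x p q ∧ ¬ R y p q

theorem exists_relSys {A B C : Type} [AddCommGroup A] [AddCommGroup B] [AddCommGroup C]
    (a : Layer A B) (b : Layer B C) (β : Type*) (h : LatticeHom (MM a b) (Setoid β))
    (hinj : Function.Injective h)
    (hc : ∀ (x y : MM a b) (p q : β),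
      (∃ c : β, (h x).r p c ∧ (h y).r c q) ↔ (∃ c : β, (h y).r p c ∧ (h x).r c q)) :
    Nonempty (RelSys a b β) := by
  have hm : ∀ x y : LL a b, x.1 ≤ sat b y.1 → h (quotM a b x) ≤ h (quotM a b y) :=
    fun x y hxy => OrderHomClass.mono h ((quotM_le_iff a b x y).2 hxy)
  refine ⟨{ R := fun x p q => ∃ hx : InL a b x, (h (quotM a b ⟨x, hx⟩)).r p q
            symm := ?_, trans := ?_, mono := ?_, inf := ?_, perm := ?_, split := ?_, sep := ?_ }⟩
  · rintro x p q ⟨hx, h1⟩
    exact ⟨hx, Setoid.symm' _ h1⟩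
  · rintro x p q r ⟨hx, h1⟩ ⟨_, h2⟩
    exact ⟨hx, Setoid.trans' _ h1 h2⟩
  · rintro x y p q hy hxy ⟨hx, h1⟩
    exact ⟨hy, hm ⟨x, hx⟩ ⟨y, hy⟩ hxy h1⟩
  · rintro x y p q ⟨hx, h1⟩ ⟨hy, h2⟩
    refine ⟨hx.inf hy, ?_⟩
    have e : (⟨x ⊓ y, hx.inf hy⟩ : LL a b) = ⟨x, hx⟩ ⊓ ⟨y, hy⟩ := rfl
    rw [e, map_inf, map_inf]
    exact Setoid.inf_iff_and.2 ⟨h1, h2⟩
  · rintro x y p q r ⟨hx, h1⟩ ⟨hy, h2⟩
    obtain ⟨d, h3, h4⟩ := (hc _ _ p r).1 ⟨q, h1, h2⟩
    exact ⟨d, ⟨hy, h3⟩, ⟨hx, h4⟩⟩
  · rintro x y z p q hy hz hxy ⟨hx, h1⟩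
    have h2 := hm ⟨x, hx⟩ (⟨y, hy⟩ ⊔ ⟨z, hz⟩) hxy h1
    rw [map_sup, map_sup] at h2
    obtain ⟨c, h3, h4⟩ := setoid_sup_comp _ _ (hc _ _) h2
    exact ⟨c, ⟨hy, h3⟩, ⟨hz, h4⟩⟩
  · intro x y hx hy hxy
    by_contra hcon
    apply hxy
    have h1 : h (quotM a b ⟨x, hx⟩) ≤ h (quotM a b ⟨y, hy⟩) := by
      intro p q hpq
      by_contra h2
      exact hcon ⟨p, q, ⟨hx, hpq⟩, fun ⟨_, h3⟩ => h2 h3⟩
    have h2 : quotM a b ⟨x, hx⟩ ≤ quotM a b ⟨y, hy⟩ := by
      rw [← inf_eq_left]
      apply hinj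
      rw [map_inf]
      exact inf_eq_left.2 h1
    exact (quotM_le_iff a b _ _).1 h2

section Chart

variable {A B C : Type} [AddCommGroup A] [AddCommGroup B] [AddCommGroup C]

/-- bottom part of a two-layer subgroup -/
def low (N : AddSubgroup (A × C)) : AddSubgroup C := N.comap (AddMonoidHom.inr A C)

theorem mem_low {N : AddSubgroup (A × C)} {s : C} : s ∈ low N ↔ ((0 : A), s) ∈ N := Iff.rfl

theorem low_mono {N N' : AddSubgroup (A × C)} (h : N ≤ N') : low N ≤ low N' := fun _ hs => h hs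

/-- the element of the three-layer lattice attached to `N` in the chart `al` -/
def chart (b : Layer B C) (al : A →+ B) (N : AddSubgroup (A × C)) : AddSubgroup (A × B × C) where
  carrier := {v | ∃ s', (v.1, s') ∈ N ∧ (v.2.1 - al v.1, v.2.2 - s') ∈ b.lift (low N)}
  zero_mem' := ⟨0, N.zero_mem, by
    simp only [Prod.snd_zero, Prod.fst_zero, map_zero, sub_self]
    exact (b.lift (low N)).zero_mem⟩
  add_mem' := by
    rintro ⟨u, t, s⟩ ⟨u', t', s'⟩ ⟨r, h1, h2⟩ ⟨r', h3, h4⟩
    refine ⟨r + r', by simpa using N.add_mem h1 h3, ?_⟩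
    have := (b.lift (low N)).add_mem h2 h4
    simp only [Prod.mk_add_mk, map_add] at this ⊢
    convert this using 2 <;> abel
  neg_mem' := by
    rintro ⟨u, t, s⟩ ⟨r, h1, h2⟩
    refine ⟨-r, by simpa using N.neg_mem h1, ?_⟩
    have := (b.lift (low N)).neg_mem h2
    simp only [Prod.neg_mk, map_neg] at this ⊢
    convert this using 2 <;> abel

variable {a : Layer A B} {b : Layer B C} {al : A →+ B}

theorem mem_chart {N : AddSubgroup (A × C)} {u : A} {t : B} {s : C} :
    (u, t, s) ∈ chart b al N ↔ ∃ s', (u, s') ∈ N ∧ (t - al u, s - s') ∈ b.lift (low N) := Iff.rfl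

theorem zero_mem_chart {N : AddSubgroup (A × C)} {t : B} {s : C} :
    ((0 : A), t, s) ∈ chart b al N ↔ (t, s) ∈ b.lift (low N) := by
  rw [mem_chart]
  constructor
  · rintro ⟨s', h1, h2⟩
    have h3 : ((0 : B), s') ∈ b.lift (low N) := b.zero_mem_lift.2 h1
    simpa using (b.lift _).add_mem h2 h3
  · intro h
    exact ⟨0, N.zero_mem, by simpa using h⟩

theorem bot3_chart (N : AddSubgroup (A × C)) : bot3 (chart b al N) = low N := by
  ext s
  rw [mem_bot3, zero_mem_chart, b.zero_mem_lift]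

theorem mem_mid_chart {N : AddSubgroup (A × C)} {t : B} :
    t ∈ mid (chart b al N) ↔ b.Phi t (low N) := by
  rw [mem_mid]
  constructor
  · rintro ⟨s, hs⟩
    exact (zero_mem_chart.1 hs).1
  · intro h
    exact ⟨b.sec t, zero_mem_chart.2 ⟨h, by simp⟩⟩

theorem chart_inL {N : AddSubgroup (A × C)}
    (h : ∀ u s, (u, s) ∈ N → (u, al u) ∈ a.lift (mid (chart b al N))) :
    InL a b (chart b al N) := by
  refine ⟨?_, ?_⟩
  · rintro u t s ⟨s', h1, h2⟩
    have h3 : ((0 : A), t - al u) ∈ a.lift (mid (chart b al N)) :=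
      a.zero_mem_lift.2 (mem_mid_chart.2 h2.1)
    simpa using (a.lift _).add_mem (h u s' h1) h3
  · intro t s h1
    rw [bot3_chart]
    exact zero_mem_chart.1 h1

theorem chart_mono {N N' : AddSubgroup (A × C)} (h : N ≤ N') : chart b al N ≤ chart b al N' := by
  rintro ⟨u, t, s⟩ ⟨s', h1, h2⟩
  exact ⟨s', h h1, b.lift_mono (low_mono h) h2⟩

theorem chart_inf (N N' : AddSubgroup (A × C)) :
    chart b al N ⊓ chart b al N' ≤ chart b al (N ⊓ N') := by
  rintro ⟨u, t, s⟩ ⟨⟨s1, h1, h2⟩, ⟨s2, h3, h4⟩⟩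
  refine ⟨s - b.sec (t - al u), ⟨?_, ?_⟩, ?_⟩
  · have h5 : ((0 : A), s - s1 - b.sec (t - al u)) ∈ N := h2.2
    have := N.add_mem h1 h5
    simp only [Prod.mk_add_mk, add_zero] at this
    have e : s1 + (s - s1 - b.sec (t - al u)) = s - b.sec (t - al u) := by abel
    rw [e] at this
    exact this
  · have h5 : ((0 : A), s - s2 - b.sec (t - al u)) ∈ N' := h4.2
    have := N'.add_mem h3 h5
    simp only [Prod.mk_add_mk, add_zero] at this
    have e : s2 + (s - s2 - b.sec (t - al u)) = s - b.sec (t - al u) := by abel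
    rw [e] at this
    exact this
  · refine b.lift_mono (T := low N ⊓ low N') (T' := low (N ⊓ N'))
      (fun s' hs' => mem_low.2 ⟨hs'.1, hs'.2⟩) ?_
    exact ⟨b.inf h2.1 h4.1, by simp⟩

theorem iota_mem_chart {N : AddSubgroup (A × C)} {u : A} {s : C} (h : (u, s) ∈ N) :
    (u, al u, s) ∈ chart b al N :=
  ⟨s, h, by
    simp only [sub_self]
    exact (b.lift (low N)).zero_mem⟩

theorem chart_sup (N N' : AddSubgroup (A × C)) :
    chart b al (N ⊔ N') ≤ sat b (chart b al N ⊔ chart b al N') := by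
  have key : ∀ u s, (u, s) ∈ N ⊔ N' → (u, al u, s) ∈ chart b al N ⊔ chart b al N' := by
    intro u s h
    obtain ⟨⟨u1, s1⟩, h1, ⟨u2, s2⟩, h2, e⟩ := AddSubgroup.mem_sup.1 h
    simp only [Prod.mk_add_mk, Prod.mk.injEq] at e
    obtain ⟨rfl, rfl⟩ := e
    refine AddSubgroup.mem_sup.2 ⟨_, iota_mem_chart h1, _, iota_mem_chart h2, ?_⟩
    simp
  rintro ⟨u, t, s⟩ ⟨s', h1, h2⟩
  refine mem_sat.2 ⟨(t - al u, s - s'), b.lift_mono ?_ h2, ?_⟩
  · intro r hr
    have := key 0 r hr
    rw [map_zero] at this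
    exact this
  · simpa using key u s' h1

theorem chart_switch {al' : A →+ B} {N N' : AddSubgroup (A × C)} (hl : low N ≤ low N')
    (h : ∀ u s, (u, s) ∈ N → ∃ s', (u, s') ∈ N' ∧ (al u - al' u, s - s') ∈ b.lift (low N')) :
    chart b al N ≤ chart b al' N' := by
  rintro ⟨u, t, s⟩ ⟨s1, h1, h2⟩
  obtain ⟨s2, h3, h4⟩ := h u s1 h1
  refine ⟨s2, h3, ?_⟩
  have := (b.lift _).add_mem (b.lift_mono hl h2) h4
  simp only [Prod.mk_add_mk] at this
  convert this using 2 <;> abel

end Chart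

end Pool.Agent.Work.MP_d893f2_al
end

-- merged part: Pool.Agent.Work.MP_d893f2_al.Torus
section
set_option autoImplicit false

namespace Pool.Agent.Work.MP_d893f2_al

/-- vertices of the torus -/
abbrev P := ZMod 7 × ZMod 4
/-- the coefficient field -/
abbrev F := ZMod 2
/-- a layer -/
abbrev U := P → F
/-- the bottom layer, with two extra coordinates -/
abbrev W := U × (Bool → F)

theorem F_cases (x : F) : x = 0 ∨ x = 1 := by revert x; decide

theorem U_two (u : U) : u + u = 0 := by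
  funext k
  have : ∀ x : F, x + x = 0 := by decide
  exact this _

theorem mem_of_singles {T : AddSubgroup U} {w : U}
    (h : ∀ k, w k ≠ 0 → (Pi.single k 1 : U) ∈ T) : w ∈ T := by
  rw [← Finset.univ_sum_single w]
  refine T.sum_mem fun k _ => ?_
  rcases F_cases (w k) with h0 | h1
  · rw [h0, Pi.single_zero]; exact T.zero_mem
  · rw [h1]; exact h k (by rw [h1]; decide)

/-- restriction to a column -/
def col (c : ZMod 7) : U →+ U where
  toFun u := fun k => if k.1 = c then u k else 0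
  map_zero' := by funext k; simp
  map_add' u w := by funext k; by_cases h : k.1 = c <;> simp [h]

/-- restriction to a row -/
def row (y : ZMod 4) : U →+ U where
  toFun u := fun k => if k.2 = y then u k else 0
  map_zero' := by funext k; simp
  map_add' u w := by funext k; by_cases h : k.2 = y <;> simp [h]

theorem col_apply (c : ZMod 7) (u : U) (k : P) : col c u k = if k.1 = c then u k else 0 := rfl
theorem row_apply (y : ZMod 4) (u : U) (k : P) : row y u k = if k.2 = y then u k else 0 := rfl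

/-- the subgroup contains a full column -/
def Full (T : AddSubgroup U) (c : ZMod 7) : Prop := ∀ w, col c w ∈ T

/-- condition between the top and the middle layer -/
def PhiA (u : U) (T : AddSubgroup U) : Prop :=
  (∀ c, col c u ≠ 0 → Full T (c + 2)) ∧
  (∀ c, col (c - 1) u = 0 → col c u ≠ 0 → col c u + col (c + 1) u ∈ T)

open Classical in
/-- section between the top and the middle layer -/
noncomputable def secA (u : U) : U := if col 0 u = 0 then 0 else col 1 u

theorem PhiA.key {u : U} {T : AddSubgroup U} (h : PhiA u T) (c : ZMod 7)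
    (h1 : col (c - 1) u = 0) (h2 : Full T (c + 2)) : col c u + col (c + 1) u ∈ T := by
  by_cases h3 : col c u = 0
  · by_cases h4 : col (c + 1) u = 0
    · rw [h3, h4, add_zero]; exact T.zero_mem
    · have h5 := h.2 (c + 1) (by simpa using h3) h4
      have e : c + 1 + 1 = c + 2 := by ring
      rw [e] at h5
      have := T.sub_mem h5 (h2 u)
      rw [h3, zero_add]
      simpa using this
  · exact h.2 c h1 h3

theorem PhiA.add {u w : U} {T : AddSubgroup U} (hu : PhiA u T) (hw : PhiA w T) :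
    PhiA (u + w) T := by
  have h1 : ∀ c, col c (u + w) ≠ 0 → Full T (c + 2) := by
    intro c hc
    by_cases h : col c u = 0
    · rw [map_add, h, zero_add] at hc
      exact hw.1 c hc
    · exact hu.1 c h
  refine ⟨h1, ?_⟩
  intro c hc1 hc2
  have hF := h1 c hc2
  by_cases h : col (c - 1) u = 0
  · have h' : col (c - 1) w = 0 := by rwa [map_add, h, zero_add] at hc1
    have := T.add_mem (hu.key c h hF) (hw.key c h' hF)
    rw [map_add, map_add]
    convert this using 1; abel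
  · have hF1 : Full T (c + 1) := by
      have := hu.1 _ h
      have e : c - 1 + 2 = c + 1 := by ring
      rwa [e] at this
    refine T.add_mem ?_ (hF1 _)
    have e2 : c - 1 - 1 + 2 = c := by ring
    have e3 : c - 1 + 2 = c + 1 := by ring
    have e4 : c - 1 + 1 = c := by ring
    by_cases k1 : col (c - 1 - 1) u = 0
    · by_cases k2 : col (c - 1 - 1) w = 0
      · have a1 := hu.key (c - 1) k1 (by rw [e3]; exact hF1)
        have a2 := hw.key (c - 1) k2 (by rw [e3]; exact hF1)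
        rw [e4] at a1 a2
        have a3 := T.add_mem a1 a2
        have e5 : col (c - 1) u + col c u + (col (c - 1) w + col c w) =
            col (c - 1) (u + w) + col c (u + w) := by rw [map_add, map_add]; abel
        rwa [e5, hc1, zero_add] at a3
      · have := hw.1 _ k2
        rw [e2] at this
        exact this _
    · have := hu.1 _ k1
      rw [e2] at this
      exact this _

theorem secA_aux {u w : U} {T : AddSubgroup U} (hu : PhiA u T) (hw : PhiA w T)
    (h1 : col 0 u ≠ 0) (h2 : col 0 w = 0) : col 1 w ∈ T := by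
  by_cases h : col 1 w = 0
  · rw [h]; exact T.zero_mem
  · have h3 := hw.2 1 (by simpa using h2) h
    have h4 := hu.1 0 h1 w
    have e : (1 : ZMod 7) + 1 = 0 + 2 := by decide
    rw [e] at h3
    simpa using T.sub_mem h3 h4

theorem secA_add {u w : U} {T : AddSubgroup U} (hu : PhiA u T) (hw : PhiA w T) :
    secA (u + w) - secA u - secA w ∈ T := by
  unfold secA
  by_cases h1 : col 0 u = 0 <;> by_cases h2 : col 0 w = 0
  · simp [h1, h2]
  · have := secA_aux hw hu h2 h1
    simpa [h1, h2] using this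
  · have := secA_aux hu hw h1 h2
    simpa [h1, h2] using this
  · by_cases h3 : col 0 (u + w) = 0
    · rw [if_pos h3, if_neg h1, if_neg h2]
      have e : (0 : U) - col 1 u - col 1 w = -(col 1 u + col 1 w) := by abel
      rw [e]
      refine T.neg_mem ?_
      have e1 : (0 : ZMod 7) - 1 + 2 = 1 := by decide
      by_cases k1 : col (0 - 1) u = 0
      · by_cases k2 : col (0 - 1) w = 0
        · have a1 := hu.2 0 k1 h1
          have a2 := hw.2 0 k2 h2
          have a3 := T.add_mem a1 a2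
          have e5 : col 0 u + col (0 + 1) u + (col 0 w + col (0 + 1) w) =
              col 0 (u + w) + (col 1 u + col 1 w) := by rw [map_add, zero_add]; abel
          rwa [e5, h3, zero_add] at a3
        · have := hw.1 _ k2
          rw [e1] at this
          exact T.add_mem (this _) (this _)
      · have := hu.1 _ k1
        rw [e1] at this
        exact T.add_mem (this _) (this _)
    · rw [if_neg h3, if_neg h1, if_neg h2, map_add]
      simp

/-- the upper gluing datum -/
noncomputable def layA : Layer U U where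
  Phi := PhiA
  sec := secA
  mono h hu := ⟨fun c hc w => h (hu.1 c hc w), fun c h1 h2 => h (hu.2 c h1 h2)⟩
  inf h h' := ⟨fun c hc w => ⟨h.1 c hc w, h'.1 c hc w⟩, fun c h1 h2 => ⟨h.2 c h1 h2, h'.2 c h1 h2⟩⟩
  zero T := ⟨fun c hc => absurd (map_zero _) hc, fun c _ hc => absurd (map_zero _) hc⟩
  sec_zero := by simp [secA]
  add h h' := ⟨h.add h', secA_add h h'⟩
  two := U_two

/-- the bottom point `l` lies below the middle point `k` -/
def hb (l k : P) : Prop :=
  l.2 = k.2 + 2 ∧ (l.1 = k.1 ∨ l.1 = k.1 + 1 ∨ l.1 = k.1 + 2 ∨ l.1 = k.1 + 3)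

instance (l k : P) : Decidable (hb l k) := by unfold hb; infer_instance

theorem hb_total : ∀ l k : P, l.2 = k.2 + 2 → hb l k ∨ hb k l := by decide

/-- condition between the middle and the bottom layer -/
def PhiB (t : U) (Y : AddSubgroup U) : Prop :=
  t ∈ Y ∧ ∀ k l, t k ≠ 0 → hb l k → (Pi.single l 1 : U) ∈ Y

/-- the rows `y, y+1` carry everything that is not hidden inside the set -/
def Intr (y : ZMod 4) (S : P → Prop) : Prop :=
  ∀ k, S k → k.2 ≠ y → k.2 ≠ y + 1 → ∃ k', S k' ∧ hb k k'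

/-- the rows `y, y+1` carry everything that is not in `Y` -/
def Valid (y : ZMod 4) (t : U) (Y : AddSubgroup U) : Prop :=
  ∀ k, t k ≠ 0 → k.2 ≠ y → k.2 ≠ y + 1 → (Pi.single k 1 : U) ∈ Y

theorem exists_intr (S : P → Prop) : ∃ y, Intr y S := by
  by_contra hcon
  have h : ∀ y : ZMod 4, ∃ k, S k ∧ k.2 ≠ y ∧ k.2 ≠ y + 1 ∧ ∀ k', S k' → ¬ hb k k' := by
    intro y
    by_contra h1
    apply hcon
    refine ⟨y, fun k hk h2 h3 => ?_⟩
    by_contra h4
    exact h1 ⟨k, hk, h2, h3, fun k' hk' h5 => h4 ⟨k', hk', h5⟩⟩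
  choose f hf using h
  have h2 : ∀ y y', (f y).2 ≠ (f y').2 + 2 := by
    intro y y' e
    rcases hb_total _ _ e with h3 | h3
    · exact (hf y).2.2.2 _ (hf y').1 h3
    · exact (hf y').2.2.2 _ (hf y).1 h3
  have h3 : ∀ r0 r1 r2 r3 : ZMod 4, ¬ ((r0 ≠ 0 ∧ r0 ≠ 0 + 1) ∧ (r1 ≠ 1 ∧ r1 ≠ 1 + 1) ∧
      (r2 ≠ 2 ∧ r2 ≠ 2 + 1) ∧ (r3 ≠ 3 ∧ r3 ≠ 3 + 1) ∧ (r0 ≠ r2 + 2 ∧ r1 ≠ r3 + 2) ∧
      (r0 ≠ r1 + 2 ∧ r0 ≠ r3 + 2) ∧ (r1 ≠ r2 + 2 ∧ r2 ≠ r3 + 2)) := by decide
  exact h3 (f 0).2 (f 1).2 (f 2).2 (f 3).2 ⟨⟨(hf 0).2.1, (hf 0).2.2.1⟩, ⟨(hf 1).2.1, (hf 1).2.2.1⟩,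
    ⟨(hf 2).2.1, (hf 2).2.2.1⟩, ⟨(hf 3).2.1, (hf 3).2.2.1⟩, ⟨h2 _ _, h2 _ _⟩, ⟨h2 _ _, h2 _ _⟩,
    ⟨h2 _ _, h2 _ _⟩⟩

/-- the linear section in the chart `y` -/
def beta (y : ZMod 4) : U →+ U := if y = 0 then row 1 else 0

open Classical in
/-- section between the middle and the bottom layer -/
noncomputable def secB (t : U) : U := if Intr 0 (fun k => t k ≠ 0) then row 1 t else 0

theorem two_chart_aux {t : U} {Y : AddSubgroup U} (ht : t ∈ Y) {y : ZMod 4} (hy : y ≠ 0)
    (h0 : Valid 0 t Y) (h1 : Valid y t Y) : row 1 t ∈ Y := by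
  by_cases hy1 : y = 1
  · subst hy1
    have : t - row 1 t ∈ Y := by
      refine mem_of_singles fun k hk => ?_
      have hk1 : k.2 ≠ 1 := by
        intro e; apply hk; simp [row_apply, e]
      have hk2 : t k ≠ 0 := by
        intro e; apply hk; simp [row_apply, e]
      by_cases hk0 : k.2 = 0
      · exact h1 k hk2 hk1 (by rw [hk0]; decide)
      · exact h0 k hk2 hk0 (by simpa using hk1)
    simpa using Y.sub_mem ht this
  · refine mem_of_singles fun k hk => ?_
    have hk1 : k.2 = 1 := by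
      by_contra e; apply hk; simp [row_apply, e]
    have hk2 : t k ≠ 0 := by
      intro e; apply hk; simp [row_apply, e]
    refine h1 k hk2 (by rw [hk1]; exact fun e => hy1 e.symm) ?_
    rw [hk1]
    intro e
    apply hy
    have : ∀ y : ZMod 4, 1 = y + 1 → y = 0 := by decide
    exact this y e

theorem two_chart {t : U} {Y : AddSubgroup U} (ht : t ∈ Y) {y y' : ZMod 4}
    (h0 : Valid y t Y) (h1 : Valid y' t Y) : beta y t - beta y' t ∈ Y := by
  unfold beta
  by_cases hy : y = 0 <;> by_cases hy' : y' = 0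
  · simp [hy, hy']
  · subst hy
    simpa [hy'] using two_chart_aux ht hy' h0 h1
  · subst hy'
    simpa [hy] using two_chart_aux ht hy h1 h0
  · simp [hy, hy']

theorem PhiB.valid {t : U} {Y : AddSubgroup U} (h : PhiB t Y) {y : ZMod 4}
    (hy : Intr y (fun k => t k ≠ 0)) : Valid y t Y := by
  intro k hk h1 h2
  obtain ⟨k', h3, h4⟩ := hy k hk h1 h2
  exact h.2 k' k h3 h4

theorem secB_chart {t : U} {Y : AddSubgroup U} (h : PhiB t Y) {y : ZMod 4} (hy : Valid y t Y) :
    secB t - beta y t ∈ Y := by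
  unfold secB
  by_cases h0 : Intr 0 (fun k => t k ≠ 0)
  · rw [if_pos h0]
    have := two_chart h.1 (h.valid h0) hy
    simpa [beta] using this
  · rw [if_neg h0]
    obtain ⟨y1, hy1⟩ := exists_intr (fun k => t k ≠ 0)
    have hne : y1 ≠ 0 := by rintro rfl; exact h0 hy1
    have := two_chart h.1 (h.valid hy1) hy
    have e : beta y1 t = 0 := by simp [beta, hne]
    rwa [e] at this

theorem PhiB.add {t t' : U} {Y : AddSubgroup U} (h : PhiB t Y) (h' : PhiB t' Y) :
    PhiB (t + t') Y := by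
  refine ⟨Y.add_mem h.1 h'.1, fun k l hk hl => ?_⟩
  by_cases h1 : t k = 0
  · refine h'.2 k l ?_ hl
    simpa [h1] using hk
  · exact h.2 k l h1 hl

theorem secB_add {t t' : U} {Y : AddSubgroup U} (h : PhiB t Y) (h' : PhiB t' Y) :
    secB (t + t') - secB t - secB t' ∈ Y := by
  obtain ⟨y, hy⟩ := exists_intr (fun k => t k ≠ 0 ∨ t' k ≠ 0)
  have hv : ∀ k, (t k ≠ 0 ∨ t' k ≠ 0) → k.2 ≠ y → k.2 ≠ y + 1 → (Pi.single k 1 : U) ∈ Y := by
    intro k hk h1 h2
    obtain ⟨k', h3 | h3, h4⟩ := hy k hk h1 h2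
    · exact h.2 k' k h3 h4
    · exact h'.2 k' k h3 h4
  have v1 : Valid y t Y := fun k hk => hv k (Or.inl hk)
  have v2 : Valid y t' Y := fun k hk => hv k (Or.inr hk)
  have v3 : Valid y (t + t') Y := by
    intro k hk
    refine hv k ?_
    by_cases h1 : t k = 0
    · right; simpa [h1] using hk
    · left; exact h1
  have := Y.sub_mem (Y.sub_mem (secB_chart (h.add h') v3) (secB_chart h v1)) (secB_chart h' v2)
  rw [map_add] at this
  convert this using 1; abel

/-- the torus part of a subgroup of the bottom layer -/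
def fstPart (Y : AddSubgroup W) : AddSubgroup U := Y.comap (AddMonoidHom.inl U (Bool → F))

theorem mem_fstPart {Y : AddSubgroup W} {s : U} : s ∈ fstPart Y ↔ ((s, 0) : W) ∈ Y := Iff.rfl

/-- the lower gluing datum -/
noncomputable def layB : Layer U W where
  Phi t Y := PhiB t (fstPart Y)
  sec t := (secB t, 0)
  mono h hu := ⟨h hu.1, fun k l h1 h2 => h (hu.2 k l h1 h2)⟩
  inf h h' := ⟨⟨h.1, h'.1⟩, fun k l h1 h2 => ⟨h.2 k l h1 h2, h'.2 k l h1 h2⟩⟩
  zero T := ⟨(fstPart T).zero_mem, fun k l h => absurd rfl h⟩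
  sec_zero := by
    have : secB 0 = 0 := by
      unfold secB
      split_ifs <;> simp
    rw [this]; rfl
  add h h' := ⟨h.add h', by
    have := mem_fstPart.1 (secB_add h h')
    simpa using this⟩
  two := U_two

end Pool.Agent.Work.MP_d893f2_al
end

-- merged part: Pool.Agent.Work.MP_d893f2_al.Elems
section
set_option autoImplicit false

namespace Pool.Agent.Work.MP_d893f2_al

/-- the two surviving layers -/
abbrev G := U × W

theorem G_neg (g : G) : -g = g := by
  have h : ∀ x : F, -x = x := by decide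
  obtain ⟨u, s, w⟩ := g
  simp only [Prod.neg_mk, Prod.mk.injEq]
  exact ⟨funext fun k => h _, funext fun k => h _, funext fun k => h _⟩

/-- a subgroup given by a predicate on the coordinates -/
def mkN (p : U → U → (Bool → F) → Prop) (h0 : p 0 0 0)
    (hadd : ∀ u s w u' s' w', p u s w → p u' s' w' → p (u + u') (s + s') (w + w')) :
    AddSubgroup G where
  carrier := {g | p g.1 g.2.1 g.2.2}
  zero_mem' := h0
  add_mem' := fun {g g'} h h' => hadd _ _ _ _ _ _ h h'
  neg_mem' := fun {g} h => by rw [G_neg]; exact h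

theorem mem_mkN {p : U → U → (Bool → F) → Prop} {h0 hadd} {u s : U} {w : Bool → F} :
    ((u, s, w) : G) ∈ mkN p h0 hadd ↔ p u s w := Iff.rfl

/-- adjacency (or equality) in the strong product of the two cycles -/
def near (k l : P) : Prop := (l.1 = k.1 ∨ l.1 = k.1 + 1 ∨ l.1 + 1 = k.1) ∧ l.2 ≠ k.2 + 2

instance (k l : P) : Decidable (near k l) := by unfold near; infer_instance

theorem near_symm : ∀ k l : P, near k l → near l k := by decide

theorem near_refl : ∀ k : P, near k k := by decide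

/-- closure conditions that make a chart element admissible -/
def Good (N : AddSubgroup G) : Prop :=
  ∀ u s w, ((u, s, w) : G) ∈ N → ((0, u, 0) : G) ∈ N ∧
    ∀ k l, u k ≠ 0 → ¬ near k l → ((0, Pi.single l 1, 0) : G) ∈ N

/-- the top support lies in the columns `c, c+1` -/
def Win (c : ZMod 7) (N : AddSubgroup G) : Prop :=
  ∀ u s w, ((u, s, w) : G) ∈ N → ∀ k, u k ≠ 0 → k.1 = c ∨ k.1 = c + 1

/-- the linear section in the chart `c` -/
def alpha (c : ZMod 7) : U →+ U := if c = 0 then col 1 else 0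

/-- the element of the big lattice attached to `N` in the chart `c` -/
noncomputable def ch (c : ZMod 7) (N : AddSubgroup G) : AddSubgroup (U × U × W) :=
  chart layB (alpha c) N

/-- admissibility in the chart `c` -/
def Ok (c : ZMod 7) (N : AddSubgroup G) : Prop := InL layA layB (ch c N)

theorem mem_low_fst {N : AddSubgroup G} {s : U} :
    s ∈ fstPart (low N) ↔ ((0, s, 0) : G) ∈ N := Iff.rfl

theorem exists_of_col_ne {c : ZMod 7} {u : U} (h : col c u ≠ 0) : ∃ k, k.1 = c ∧ u k ≠ 0 := by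
  by_contra hc
  apply h
  funext k
  by_cases h1 : k.1 = c
  · by_cases h2 : u k = 0
    · simp [col_apply, h2]
    · exact absurd ⟨k, h1, h2⟩ hc
  · simp [col_apply, h1]

theorem Good.phiB {N : AddSubgroup G} (hN : Good N) {u s : U} {w : Bool → F}
    (h : ((u, s, w) : G) ∈ N) : PhiB u (fstPart (low N)) := by
  refine ⟨(hN u s w h).1, fun k l hk hl => (hN u s w h).2 k l hk ?_⟩
  intro hn
  exact hn.2 hl.1

theorem ok_of_good {c : ZMod 7} {N : AddSubgroup G} (hN : Good N) (hW : Win c N) : Ok c N := by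
  refine chart_inL ?_
  rintro u ⟨s, w⟩ h
  have hu : u ∈ mid (chart layB (alpha c) N) := mem_mid_chart.2 (hN.phiB h)
  have hdec : col c u + col (c + 1) u = u := by
    funext k
    have hne : ∀ c : ZMod 7, c ≠ c + 1 := by decide
    by_cases h0 : u k = 0
    · simp [col_apply, h0]
    · rcases hW u s w h k h0 with e | e
      · simp [col_apply, e, hne]
      · have h10 : (1 : ZMod 7) ≠ 0 := by decide
        simp [col_apply, e, h10]
  have hout : ∀ c', c' ≠ c → c' ≠ c + 1 → col c' u = 0 := by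
    intro c' h1 h2
    by_contra h3
    obtain ⟨k, hk, hk'⟩ := exists_of_col_ne h3
    rcases hW u s w h k hk' with e | e
    · exact h1 (hk ▸ e)
    · exact h2 (hk ▸ e)
  refine ⟨⟨?_, ?_⟩, ?_⟩
  · intro c' hc' v
    obtain ⟨k, hk, hk'⟩ := exists_of_col_ne hc'
    refine mem_mid_chart.2 ⟨mem_of_singles fun l hl => ?_, fun l l' hl hl' => ?_⟩
    · refine (hN u s w h).2 k l hk' ?_
      have hl1 : l.1 = k.1 + 2 := by
        by_contra e; apply hl; rw [col_apply, if_neg]; rwa [← hk]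
      have : ∀ x y : ZMod 7, y = x + 2 → ¬ (y = x ∨ y = x + 1 ∨ y + 1 = x) := by decide
      exact fun hn => this _ _ hl1 hn.1
    · refine (hN u s w h).2 k l' hk' ?_
      have hl1 : l.1 = k.1 + 2 := by
        by_contra e; apply hl; rw [col_apply, if_neg]; rwa [← hk]
      have : ∀ x y z : ZMod 7, y = x + 2 → (z = y ∨ z = y + 1 ∨ z = y + 2 ∨ z = y + 3) →
          ¬ (z = x ∨ z = x + 1 ∨ z + 1 = x) := by decide
      exact fun hn => this _ _ _ hl1 hl'.2 hn.1
  · intro c' h1 h2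
    by_cases e : c' = c
    · subst e
      show col c' u + col (c' + 1) u ∈ _
      rw [hdec]; exact hu
    · have e2 : c' = c + 1 := by
        by_contra e2
        exact h2 (hout c' e e2)
      subst e2
      have h3 : col c u = 0 := by simpa using h1
      have h4 : col (c + 1 + 1) u = 0 := by
        have : ∀ c : ZMod 7, c + 1 + 1 ≠ c ∧ c + 1 + 1 ≠ c + 1 := by decide
        exact hout _ (this c).1 (this c).2
      show col (c + 1) u + col (c + 1 + 1) u ∈ _
      rw [h3, zero_add] at hdec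
      rw [h4, add_zero, hdec]; exact hu
  · show alpha c u - secA u ∈ _
    unfold alpha secA
    by_cases e : c = 0
    · subst e
      by_cases h0 : col 0 u = 0
      · rw [h0, zero_add, zero_add] at hdec
        simp only [if_true, h0, sub_zero, hdec]
        exact hu
      · simp [h0]
    · by_cases h0 : col 0 u = 0
      · simp [e, h0]
      · have e2 : (0 : ZMod 7) = c + 1 := by
          by_contra e2
          exact h0 (hout 0 (Ne.symm e) e2)
        have h1 : col 1 u = 0 := by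
          have : ∀ c : ZMod 7, 0 = c + 1 → 1 ≠ c ∧ 1 ≠ c + 1 := by decide
          exact hout 1 (this c e2).1 (this c e2).2
        simp [e, h0, h1]

theorem lift_top_mem {N : AddSubgroup G} (hN : ∀ s w, ((0, s, w) : G) ∈ N) (p : U × W) :
    p ∈ layB.lift (low N) := by
  obtain ⟨t, s, w⟩ := p
  exact ⟨⟨hN _ _, fun _ _ _ _ => hN _ _⟩, hN _ _⟩

theorem ok_of_top {c : ZMod 7} {N : AddSubgroup G} (hN : ∀ s w, ((0, s, w) : G) ∈ N) :
    Ok c N := by
  refine chart_inL ?_
  rintro u s h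
  have hT : ∀ t, t ∈ mid (chart layB (alpha c) N) :=
    fun t => mem_mid_chart.2 (lift_top_mem hN (t, 0)).1
  exact ⟨⟨fun _ _ _ => hT _, fun _ _ _ => hT _⟩, hT _⟩

theorem ch_top {c c' : ZMod 7} {N : AddSubgroup G} (hN : ∀ s w, ((0, s, w) : G) ∈ N) :
    ch c N ≤ ch c' N :=
  chart_switch le_rfl fun _ s h => ⟨s, h, lift_top_mem hN _⟩

theorem ch_zero {c c' : ZMod 7} {N : AddSubgroup G} (hN : ∀ u s w, ((u, s, w) : G) ∈ N → u = 0) :
    ch c N ≤ ch c' N := by
  refine chart_switch le_rfl ?_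
  rintro u ⟨s, w⟩ h
  refine ⟨(s, w), h, ?_⟩
  rw [hN u s w h]
  simp only [map_zero, sub_self]
  exact (layB.lift _).zero_mem

theorem ok_of_zero {c : ZMod 7} {N : AddSubgroup G} (hN : ∀ u s w, ((u, s, w) : G) ∈ N → u = 0) :
    Ok c N := by
  refine ok_of_good ?_ ?_
  · intro u s w h
    rw [hN u s w h]
    exact ⟨N.zero_mem, fun k l hk => absurd rfl hk⟩
  · intro u s w h k hk
    rw [hN u s w h] at hk
    exact absurd rfl hk

theorem beta_mem_lift {N : AddSubgroup G} (hN : Good N) {u s : U} {w : Bool → F}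
    (h : ((u, s, w) : G) ∈ N) (y : ZMod 4) (hy : ∀ k, u k ≠ 0 → k.2 = y ∨ k.2 = y + 1) :
    (u, ((beta y u, 0) : W)) ∈ layB.lift (low N) := by
  refine ⟨hN.phiB h, ?_⟩
  have hv : Valid y u (fstPart (low N)) := by
    intro k hk h1 h2
    rcases hy k hk with e | e
    · exact absurd e h1
    · exact absurd e h2
  have := (fstPart (low N)).neg_mem (secB_chart (hN.phiB h) hv)
  have h2 := mem_fstPart.1 this
  show ((beta y u, 0) : W) - (secB u, 0) ∈ low N
  simpa using h2

/-- vertex element -/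
def eA (i : P) : AddSubgroup G :=
  mkN (fun u s w => (∀ m, m ≠ i → u m = 0) ∧ (∀ m, m ≠ i → near i m → s m = 0) ∧ w = 0)
    (by simp) (by
      intro u s w u' s' w' h h'
      refine ⟨fun m hm => ?_, fun m hm hn => ?_, ?_⟩
      · simp [h.1 m hm, h'.1 m hm]
      · simp [h.2.1 m hm hn, h'.2.1 m hm hn]
      · simp [h.2.2, h'.2.2])

/-- edge element -/
def eK (i j : P) (κ : F) : AddSubgroup G :=
  mkN (fun u s w => (∀ m, m ≠ i → m ≠ j → u m = 0) ∧ u i = u j ∧ s i + s j = κ * u i ∧ w = 0)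
    (by simp) (by
      intro u s w u' s' w' h h'
      refine ⟨fun m hm hm' => ?_, ?_, ?_, ?_⟩
      · simp [h.1 m hm hm', h'.1 m hm hm']
      · simp [h.2.1, h'.2.1]
      · simp only [Pi.add_apply]
        linear_combination h.2.2.1 + h'.2.2.1
      · simp [h.2.2.2, h'.2.2.2])

/-- an extra bottom axis -/
def eS (n : Bool) : AddSubgroup G :=
  mkN (fun u s w => u = 0 ∧ s = 0 ∧ w (!n) = 0) (by simp) (by
      intro u s w u' s' w' h h'
      simp [h.1, h'.1, h.2.1, h'.2.1, h.2.2, h'.2.2])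

/-- diagonal between a bottom axis and an extra axis -/
def eD (i : P) (n : Bool) : AddSubgroup G :=
  mkN (fun u s w => u = 0 ∧ s i = w n ∧ w (!n) = 0) (by simp) (by
      intro u s w u' s' w' h h'
      simp [h.1, h'.1, h.2.1, h'.2.1, h.2.2, h'.2.2])

/-- even top part -/
def eEv : AddSubgroup G :=
  mkN (fun u _ _ => ∑ m, u m = 0) (by simp) (by
      intro u s w u' s' w' h h'
      simp [Finset.sum_add_distrib, h, h'])

/-- top axis -/
def eAx (i : P) : AddSubgroup G :=
  mkN (fun u _ _ => ∀ m, m ≠ i → u m = 0) (by simp) (by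
      intro u s w u' s' w' h h' m hm
      simp [h m hm, h' m hm])

/-- zero top part -/
def eT0 : AddSubgroup G :=
  mkN (fun u _ _ => u = 0) (by simp) (by
      intro u s w u' s' w' h h'
      simp [h, h'])

theorem good_eA (i : P) : Good (eA i) := by
  intro u s w h
  refine ⟨⟨by simp, fun m hm _ => h.1 m hm, rfl⟩, fun k l hk hl => ⟨by simp, fun m hm hn => ?_, rfl⟩⟩
  have : k = i := by
    by_contra e
    exact hk (h.1 k e)
  subst this
  have : m ≠ l := by rintro rfl; exact hl hn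
  simp [this]

theorem win_of_supp {c : ZMod 7} {N : AddSubgroup G} (σ : P → Prop)
    (h : ∀ u s w, ((u, s, w) : G) ∈ N → ∀ m, ¬ σ m → u m = 0)
    (hσ : ∀ m, σ m → m.1 = c ∨ m.1 = c + 1) : Win c N := by
  intro u s w hm k hk
  refine hσ k ?_
  by_contra e
  exact hk (h u s w hm k e)

theorem ok_eA {c : ZMod 7} {i : P} (hi : i.1 = c ∨ i.1 = c + 1) : Ok c (eA i) :=
  ok_of_good (good_eA i) (win_of_supp (· = i) (fun _ _ _ h => h.1) (by rintro m rfl; exact hi))

theorem good_eK {i j : P} (hn : near i j) (κ : F) : Good (eK i j κ) := by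
  intro u s w h
  refine ⟨⟨by simp, by simp, ?_, rfl⟩, fun k l hk hl => ⟨by simp, by simp, ?_, rfl⟩⟩
  · have h2 : u i = u j := h.2.1
    have : ∀ x : F, x + x = 0 := by decide
    simp [h2, this]
  · have h1 : k = i ∨ k = j := by
      by_contra e
      push Not at e
      exact hk (h.1 k e.1 e.2)
    have h2 : i ≠ l := by
      rintro rfl
      rcases h1 with rfl | rfl
      · exact hl (near_refl _)
      · exact hl (near_symm _ _ hn)
    have h3 : j ≠ l := by
      rintro rfl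
      rcases h1 with rfl | rfl
      · exact hl hn
      · exact hl (near_refl _)
    simp [h2, h3]

theorem ok_eK {c : ZMod 7} {i j : P} (hi : i.1 = c ∨ i.1 = c + 1) (hj : j.1 = c ∨ j.1 = c + 1)
    (hn : near i j) (κ : F) : Ok c (eK i j κ) :=
  ok_of_good (good_eK hn κ) (win_of_supp (fun m => m = i ∨ m = j)
    (fun _ _ _ h m hm => h.1 m (fun e => hm (Or.inl e)) (fun e => hm (Or.inr e)))
    (by rintro m (rfl | rfl); exacts [hi, hj]))

theorem alpha_cases (c : ZMod 7) (u : U) (x : ZMod 7) (h : ∀ k, u k ≠ 0 → k.1 = x) :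
    alpha c u = if c = 0 ∧ x = 1 then u else 0 := by
  unfold alpha
  by_cases hc : c = 0
  · by_cases hx : x = 1
    · simp only [hc, hx, if_true, and_self]
      funext k
      by_cases h0 : u k = 0
      · simp [col_apply, h0]
      · simp [col_apply, h k h0, hx]
    · simp only [hc, hx, if_true, and_false, if_false]
      funext k
      by_cases h0 : u k = 0
      · simp [col_apply, h0]
      · simp [col_apply, h k h0, hx]
  · simp [hc]

theorem ch_eA (c c' : ZMod 7) (i : P) : ch c (eA i) ≤ ch c' (eA i) := by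
  refine chart_switch le_rfl ?_
  rintro u ⟨s, w⟩ h
  refine ⟨(s, w), h, ?_⟩
  have hs : ∀ k, u k ≠ 0 → k = i := by
    intro k hk
    by_contra e
    exact hk (h.1 k e)
  have h1 : (u, (0 : W)) ∈ layB.lift (low (eA i)) := by
    have h2 := beta_mem_lift (good_eA i) h (i.2) (fun k hk => Or.inl (by rw [hs k hk]))
    have h3 : ((0 : U), ((beta i.2 u, 0) : W)) ∈ layB.lift (low (eA i)) := by
      rw [layB.zero_mem_lift, mem_low]
      refine ⟨by simp, fun m hm _ => ?_, rfl⟩
      have : u m = 0 := h.1 m hm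
      show beta i.2 u m = 0
      unfold beta
      split_ifs <;> simp [row_apply, this]
    simpa using (layB.lift _).sub_mem h2 h3
  have h0 : ((0 : U), (0 : W)) ∈ layB.lift (low (eA i)) := (layB.lift _).zero_mem
  rw [alpha_cases c u i.1 (fun k hk => by rw [hs k hk]),
    alpha_cases c' u i.1 (fun k hk => by rw [hs k hk]), sub_self]
  split_ifs
  · simpa using h0
  · simpa using h1
  · have := (layB.lift _).neg_mem h1
    simpa using this
  · simpa using h0

/-- the twist of a vertical edge seen from the chart `c` -/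
def twist (c : ZMod 7) (i : P) : F := if c = 0 ∧ i = (1, 0) then 1 else 0

theorem ch_eK_vert (c : ZMod 7) {c' : ZMod 7} (hc' : c' ≠ 0) (i : P) (κ : F) :
    ch c' (eK i (i + (0, 1)) κ) ≤ ch c (eK i (i + (0, 1)) (κ + twist c i)) := by
  have hn : near i (i + (0, 1)) := by revert i; decide
  have hne : i + (0, 1) ≠ i := by revert i; decide
  refine chart_switch ?_ ?_
  · rintro ⟨s, w⟩ h
    exact ⟨h.1, h.2.1, by simpa using h.2.2.1, h.2.2.2⟩
  rintro u ⟨s, w⟩ h
  have hs : ∀ k, u k ≠ 0 → k = i ∨ k = i + (0, 1) := by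
    intro k hk
    by_contra e
    push Not at e
    exact hk (h.1 k e.1 e.2)
  have hcol : ∀ k, u k ≠ 0 → k.1 = i.1 := by
    intro k hk
    rcases hs k hk with rfl | rfl <;> simp
  rw [alpha_cases c u i.1 hcol, alpha_cases c' u i.1 hcol, if_neg (fun e => hc' e.1)]
  by_cases hc : c = 0 ∧ i.1 = 1
  · rw [if_pos hc]
    have h1 : ((u, s - beta i.2 u, w) : G) ∈ eK i (i + (0, 1)) (κ + twist c i) := by
      refine ⟨h.1, h.2.1, ?_, h.2.2.2⟩
      have e1 : s i + s (i + (0, 1)) = κ * u i := h.2.2.1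
      have e2 : u i = u (i + (0, 1)) := h.2.1
      have e3 : beta i.2 u i + beta i.2 u (i + (0, 1)) = twist c i * u i := by
        unfold beta twist
        by_cases hy : i.2 = 0
        · have : i = (1, 0) := Prod.ext hc.2 hy
          subst this
          simp only [hc.1, if_true, row_apply, and_self, one_mul, e2]
          have h01 : (0 : ZMod 4) ≠ 1 := by decide
          simp [h01]
        · have : ¬ (c = 0 ∧ i = (1, 0)) := fun e => hy (by rw [e.2])
          simp [hy, this]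
      have two : ∀ x : F, x + x = 0 := by decide
      show (s - beta i.2 u) i + (s - beta i.2 u) (i + (0, 1)) = (κ + twist c i) * u i
      simp only [Pi.sub_apply]
      linear_combination e1 - e3 - two (twist c i * u i)
    refine ⟨(s - beta i.2 u, w), h1, ?_⟩
    have h2 := beta_mem_lift (good_eK hn _) h1 i.2 (by
      intro k hk
      rcases hs k hk with rfl | rfl <;> simp)
    have e : (0 : U) - u = u := by
      rw [zero_sub]; exact layB.neg_eq u
    rw [e]
    simpa using h2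
  · rw [if_neg hc]
    have ht : twist c i = 0 := by
      unfold twist
      rw [if_neg]
      rintro ⟨e1, e2⟩
      exact hc ⟨e1, by rw [e2]⟩
    rw [ht, add_zero]
    refine ⟨(s, w), h, ?_⟩
    simp only [sub_self]
    exact (layB.lift _).zero_mem

end Pool.Agent.Work.MP_d893f2_al
end

-- merged part: Pool.Agent.Work.MP_d893f2_al.Chase
section
set_option autoImplicit false

namespace Pool.Agent.Work.MP_d893f2_al

theorem le_of_mem {N N' : AddSubgroup G}
    (h : ∀ u s w, ((u, s, w) : G) ∈ N → ((u, s, w) : G) ∈ N') : N ≤ N' :=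
  fun ⟨u, s, w⟩ hg => h u s w hg

theorem inf_le_of_mem {N N' N'' : AddSubgroup G}
    (h : ∀ u s w, ((u, s, w) : G) ∈ N → ((u, s, w) : G) ∈ N' → ((u, s, w) : G) ∈ N'') :
    N ⊓ N' ≤ N'' :=
  fun ⟨u, s, w⟩ hg => h u s w hg.1 hg.2

theorem ok3 {c : ZMod 7} {N : AddSubgroup G} {i j k : P}
    (hi : i.1 = c ∨ i.1 = c + 1) (hj : j.1 = c ∨ j.1 = c + 1) (hk : k.1 = c ∨ k.1 = c + 1)
    (hij : near i j) (hjk : near j k) (hik : near i k)
    (hs : ∀ u s w, ((u, s, w) : G) ∈ N → ∀ m, m ≠ i → m ≠ j → m ≠ k → u m = 0)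
    (h1 : ∀ u s w, ((u, s, w) : G) ∈ N → ((0, u, 0) : G) ∈ N)
    (h2 : ∀ l, i ≠ l → j ≠ l → k ≠ l → ((0, Pi.single l 1, 0) : G) ∈ N) : Ok c N := by
  have hs' : ∀ u s w, ((u, s, w) : G) ∈ N → ∀ m, u m ≠ 0 → m = i ∨ m = j ∨ m = k := by
    intro u s w h m hm
    by_contra e
    push Not at e
    exact hm (hs u s w h m e.1 e.2.1 e.2.2)
  refine ok_of_good (fun u s w h => ⟨h1 u s w h, fun m l hm hl => ?_⟩) ?_
  · have a1 := near_symm _ _ hij
    have a2 := near_symm _ _ hjk
    have a3 := near_symm _ _ hik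
    rcases hs' u s w h m hm with rfl | rfl | rfl <;> refine h2 l ?_ ?_ ?_ <;> rintro rfl <;>
      first | exact hl (near_refl _) | exact hl ‹_›
  · intro u s w h m hm
    rcases hs' u s w h m hm with rfl | rfl | rfl
    exacts [hi, hj, hk]

/-- auxiliary element -/
def nIJ (i j k : P) : AddSubgroup G :=
  mkN (fun u s w => (∀ m, m ≠ i → m ≠ j → u m = 0) ∧ s k = 0 ∧ w = 0) (by simp) (by
      intro u s w u' s' w' h h'
      refine ⟨fun m hm hm' => ?_, ?_, ?_⟩
      · simp [h.1 m hm hm', h'.1 m hm hm']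
      · simp [h.2.1, h'.2.1]
      · simp [h.2.2, h'.2.2])

/-- auxiliary element -/
def nQ (i j k : P) (κ μ : F) : AddSubgroup G :=
  mkN (fun u s w => (∀ m, m ≠ i → m ≠ j → m ≠ k → u m = 0) ∧ u i + u j + u k = 0 ∧
      s i + s j + s k = κ * u i + μ * u k ∧ w = 0) (by simp) (by
      intro u s w u' s' w' h h'
      refine ⟨fun m hm hm' hm'' => ?_, ?_, ?_, ?_⟩
      · simp [h.1 m hm hm' hm'', h'.1 m hm hm' hm'']
      · simp only [Pi.add_apply]
        linear_combination h.2.1 + h'.2.1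
      · simp only [Pi.add_apply]
        linear_combination h.2.2.1 + h'.2.2.1
      · simp [h.2.2.2, h'.2.2.2])

/-- auxiliary element -/
def n1 (i j : P) : AddSubgroup G :=
  mkN (fun u _ w => (∀ m, m ≠ i → m ≠ j → u m = 0) ∧ w = 0) (by simp) (by
      intro u s w u' s' w' h h'
      refine ⟨fun m hm hm' => ?_, ?_⟩
      · simp [h.1 m hm hm', h'.1 m hm hm']
      · simp [h.2, h'.2])

/-- auxiliary element -/
def n2 (i j : P) (κ ε : F) (n : Bool) : AddSubgroup G :=
  mkN (fun u s w => (∀ m, m ≠ i → m ≠ j → u m = 0) ∧ u i = u j ∧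
      s i + s j + ε * w n = κ * u i ∧ w (!n) = 0) (by simp) (by
      intro u s w u' s' w' h h'
      refine ⟨fun m hm hm' => ?_, ?_, ?_, ?_⟩
      · simp [h.1 m hm hm', h'.1 m hm hm']
      · simp [h.2.1, h'.2.1]
      · simp only [Pi.add_apply]
        linear_combination h.2.2.1 + h'.2.2.1
      · simp [h.2.2.2, h'.2.2.2])

/-- auxiliary element -/
def n3 (i j : P) (n : Bool) : AddSubgroup G :=
  mkN (fun u s w => (∀ m, m ≠ i → u m = 0) ∧ s j = 0 ∧ w (!n) = 0) (by simp) (by
      intro u s w u' s' w' h h'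
      refine ⟨fun m hm => ?_, ?_, ?_⟩
      · simp [h.1 m hm, h'.1 m hm]
      · simp [h.2.1, h'.2.1]
      · simp [h.2.2, h'.2.2])

/-- auxiliary element -/
def n6 (i : P) (n : Bool) : AddSubgroup G :=
  mkN (fun u s w => u = 0 ∧ s i = w n) (by simp) (by
      intro u s w u' s' w' h h'
      simp [h.1, h'.1, h.2, h'.2])

/-- auxiliary element -/
def n7 (i : P) (n : Bool) : AddSubgroup G :=
  mkN (fun u _ w => (∀ m, m ≠ i → u m = 0) ∧ w (!n) = 0) (by simp) (by
      intro u s w u' s' w' h h'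
      refine ⟨fun m hm => ?_, ?_⟩
      · simp [h.1 m hm, h'.1 m hm]
      · simp [h.2, h'.2])

/-- auxiliary element -/
def n8 (i : P) : AddSubgroup G :=
  mkN (fun u s w => u = 0 ∧ s i = w true + w false) (by simp) (by
      intro u s w u' s' w' h h'
      refine ⟨by simp [h.1, h'.1], ?_⟩
      simp only [Pi.add_apply]
      linear_combination h.2 + h'.2)

theorem F_two (x : F) : x + x = 0 := by revert x; decide

theorem w_zero {w : Bool → F} {n : Bool} (h1 : w n = 0) (h2 : w (!n) = 0) : w = 0 := by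
  funext m
  cases n <;> cases m <;> simp_all

section

variable {β : Type*} (X : RelSys layA layB β)

/-- relation attached to `N` in the chart `c` -/
def R (c : ZMod 7) (N : AddSubgroup G) (p q : β) : Prop := X.R (ch c N) p q

variable {X} {c : ZMod 7}

theorem R.symm {N : AddSubgroup G} {p q : β} (h : R X c N p q) : R X c N q p := X.symm h

theorem R.trans {N : AddSubgroup G} {p q r : β} (h : R X c N p q) (h' : R X c N q r) :
    R X c N p r := X.trans h h'

theorem R.mono {N N' : AddSubgroup G} {p q : β} (h : R X c N p q) (ho : Ok c N') (hl : N ≤ N') :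
    R X c N' p q := X.mono ho ((chart_mono hl).trans (le_sat _)) h

theorem R.meet {N N' N'' : AddSubgroup G} {p q : β} (h : R X c N p q) (h' : R X c N' p q)
    (ho : Ok c N'') (hl : N ⊓ N' ≤ N'') : R X c N'' p q :=
  X.mono ho (((chart_inf N N').trans (chart_mono hl)).trans (le_sat _)) (X.inf h h')

theorem R.split {N N1 N2 : AddSubgroup G} {p q : β} (h : R X c N p q) (h1 : Ok c N1)
    (h2 : Ok c N2) (hl : N ≤ N1 ⊔ N2) : ∃ x, R X c N1 p x ∧ R X c N2 x q :=
  X.split h1 h2 ((chart_mono hl).trans (chart_sup N1 N2)) h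

theorem R.perm {N N' : AddSubgroup G} {p q r : β} (h : R X c N p q) (h' : R X c N' q r) :
    ∃ d, R X c N' p d ∧ R X c N d r := X.perm h h'

theorem R.switch {c' : ZMod 7} {N N' : AddSubgroup G} {p q : β} (h : R X c N p q)
    (ho : Ok c' N') (hl : ch c N ≤ ch c' N') : R X c' N' p q :=
  X.mono ho (hl.trans (le_sat _)) h

theorem ok_eS (c : ZMod 7) (n : Bool) : Ok c (eS n) := ok_of_zero fun _ _ _ h => h.1
theorem ok_eD (c : ZMod 7) (i : P) (n : Bool) : Ok c (eD i n) := ok_of_zero fun _ _ _ h => h.1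
theorem ok_eEv (c : ZMod 7) : Ok c eEv := ok_of_top fun _ _ => by simp [eEv, mem_mkN]
theorem ok_eAx (c : ZMod 7) (i : P) : Ok c (eAx i) := ok_of_top fun _ _ => by simp [eAx, mem_mkN]
theorem ok_eT0 (c : ZMod 7) : Ok c eT0 := ok_of_top fun _ _ => by simp [eT0, mem_mkN]

theorem eK_symm (i j : P) (κ : F) : eK i j κ ≤ eK j i κ := by
  refine le_of_mem fun u s w h => ⟨fun m h1 h2 => h.1 m h2 h1, h.2.1.symm, ?_, h.2.2.2⟩
  have e1 : s i + s j = κ * u i := h.2.2.1
  have e2 : u i = u j := h.2.1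
  show s j + s i = κ * u j
  rw [← e2, ← e1, add_comm]

theorem exists_edge {i j : P} (hi : i.1 = c ∨ i.1 = c + 1) (hj : j.1 = c ∨ j.1 = c + 1)
    (hn : near i j) (hne : i ≠ j) {p q : β} (h : R X c (eA i) p q) :
    ∃ q', R X c (eK i j 0) q q' ∧ R X c (eA j) p q' := by
  have hl : eA i ≤ eK i j 0 ⊔ eA j := by
    refine le_of_mem fun u s w h => ?_
    have h1 : ∀ m, m ≠ i → u m = 0 := h.1
    have h2 : w = 0 := h.2.2
    refine AddSubgroup.mem_sup.2 ⟨(u + Pi.single j (u i), s + Pi.single j (s i + s j), 0), ?_,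
      (Pi.single j (u i), Pi.single j (s i + s j), 0), ?_, ?_⟩
    · refine ⟨fun m hm hm' => by simp [h1 m hm, hm'], ?_, ?_, rfl⟩
      · simp [hne, h1 j hne.symm]
      · simp only [Pi.add_apply, Pi.single_eq_same, Pi.single_eq_of_ne hne]
        linear_combination F_two (s i) + F_two (s j)
    · exact ⟨fun m hm => by simp [hm], fun m hm _ => by simp [hm], rfl⟩
    · simp only [Prod.mk_add_mk, add_assoc, U_two, add_zero, h2]
  obtain ⟨x, h1, h2⟩ := h.symm.split (ok_eK hi hj hn 0) (ok_eA hj) hl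
  exact ⟨x, h1, h2.symm⟩

theorem triangle {i j k : P}
    (hi : i.1 = c ∨ i.1 = c + 1) (hj : j.1 = c ∨ j.1 = c + 1) (hk : k.1 = c ∨ k.1 = c + 1)
    (hij : near i j) (hjk : near j k) (hik : near i k) (nij : i ≠ j) (njk : j ≠ k) (nik : i ≠ k)
    {κ μ : F} {p qi qj qk : β} (ai : R X c (eA i) p qi) (aj : R X c (eA j) p qj)
    (ak : R X c (eA k) p qk) (h1 : R X c (eK i j κ) qi qj) (h2 : R X c (eK j k μ) qj qk) :
    R X c (eK i k (κ + μ)) qi qk := by
  have okN : ∀ {i j k : P}, (i.1 = c ∨ i.1 = c + 1) → (j.1 = c ∨ j.1 = c + 1) →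
      (k.1 = c ∨ k.1 = c + 1) → near i j → near j k → near i k → k ≠ i → k ≠ j →
      Ok c (nIJ i j k) := by
    intro i j k hi hj hk hij hjk hik n1 n2
    refine ok3 hi hj hk hij hjk hik (fun u s w h m a b _ => h.1 m a b)
      (fun u s w h => ⟨by simp, h.1 k n1 n2, rfl⟩) (fun l a b d => ⟨by simp, ?_, rfl⟩)
    simp [d]
  have inN : ∀ {i j k : P} {qi qj : β}, (i.1 = c ∨ i.1 = c + 1) → (j.1 = c ∨ j.1 = c + 1) →
      (k.1 = c ∨ k.1 = c + 1) → near i j → near j k → near i k → k ≠ i → k ≠ j →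
      R X c (eA i) p qi → R X c (eA j) p qj → R X c (nIJ i j k) qi qj := by
    intro i j k qi qj hi hj hk hij hjk hik n1 n2 ai aj
    have o := okN hi hj hk hij hjk hik n1 n2
    refine (ai.symm.mono o ?_).trans (aj.mono o ?_)
    · exact le_of_mem fun u s w h => ⟨fun m a _ => h.1 m a, h.2.1 k n1 hik, h.2.2⟩
    · exact le_of_mem fun u s w h => ⟨fun m _ a => h.1 m a, h.2.1 k n2 hjk, h.2.2⟩
  have oQ : Ok c (nQ i j k κ μ) := by
    refine ok3 hi hj hk hij hjk hik (fun u s w h => h.1)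
      (fun u s w h => ⟨by simp, by simp, ?_, rfl⟩) (fun l a b d => ⟨by simp, by simp, ?_, rfl⟩)
    · have : u i + u j + u k = 0 := h.2.1
      simpa using this
    · simp [a, b, d]
  have b1 : R X c (nQ i j k κ μ) qi qj := by
    refine h1.meet (inN hi hj hk hij hjk hik nik.symm njk.symm ai aj) oQ
      (inf_le_of_mem fun u s w h h' => ⟨fun m a b _ => h.1 m a b, ?_, ?_, h.2.2.2⟩)
    · have e1 : u k = 0 := h.1 k nik.symm njk.symm
      have e2 : u i = u j := h.2.1
      show u i + u j + u k = 0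
      linear_combination e1 + e2 + F_two (u j)
    · have e1 : u k = 0 := h.1 k nik.symm njk.symm
      have e2 : s i + s j = κ * u i := h.2.2.1
      have e3 : s k = 0 := h'.2.1
      show s i + s j + s k = κ * u i + μ * u k
      linear_combination e2 + e3 - μ * e1
  have b2 : R X c (nQ i j k κ μ) qj qk := by
    refine h2.meet (inN hj hk hi hjk (near_symm _ _ hik) (near_symm _ _ hij) nij nik aj ak) oQ
      (inf_le_of_mem fun u s w h h' => ⟨fun m _ a b => h.1 m a b, ?_, ?_, h.2.2.2⟩)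
    · have e1 : u i = 0 := h.1 i nij nik
      have e2 : u j = u k := h.2.1
      show u i + u j + u k = 0
      linear_combination e1 + e2 + F_two (u k)
    · have e1 : u i = 0 := h.1 i nij nik
      have e2 : s j + s k = μ * u j := h.2.2.1
      have e3 : s i = 0 := h'.2.1
      have e4 : u j = u k := h.2.1
      show s i + s j + s k = κ * u i + μ * u k
      linear_combination e2 + e3 - κ * e1 + μ * e4
  refine (b1.trans b2).meet (inN hi hk hj hik (near_symm _ _ hjk) hij nij.symm njk ai ak)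
    (ok_eK hi hk hik _) (inf_le_of_mem fun u s w h h' => ⟨h'.1, ?_, ?_, h'.2.2⟩)
  · have e1 : u j = 0 := h'.1 j nij.symm njk
    have e2 : u i + u j + u k = 0 := h.2.1
    show u i = u k
    linear_combination e2 - e1 - F_two (u k)
  · have e1 : u j = 0 := h'.1 j nij.symm njk
    have e2 : u i + u j + u k = 0 := h.2.1
    have e3 : s i + s j + s k = κ * u i + μ * u k := h.2.2.1
    have e4 : s j = 0 := h'.2.1
    show s i + s k = (κ + μ) * u i
    linear_combination e3 - e4 + μ * e2 - μ * e1 - F_two (μ * u i)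

variable (X c) in
/-- translation of `q` to `q1` in direction `i` by the displacement `r` -/
def Tr (n : Bool) (r : β) (i : P) (q q1 : β) : Prop :=
  ∃ s, R X c (eA i) r s ∧ R X c (eS n) s q ∧ R X c (eD i n) s q1

theorem exists_tr {i : P} (n : Bool) {p q q1 : β}
    (a : R X c (eA i) p q) (a1 : R X c (eA i) p q1) (h : R X c eEv q q1) :
    ∃ r, R X c (eS n) p r ∧ Tr X c n r i q q1 := by
  have o : Ok c (eEv ⊓ eA i) := by
    refine ok_of_zero fun u s w h => ?_
    have h1 : ∑ m, u m = 0 := h.1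
    have h2 : ∀ m, m ≠ i → u m = 0 := h.2.1
    rw [Finset.sum_eq_single i (fun m _ hm => h2 m hm) (by simp)] at h1
    funext m
    by_cases e : m = i
    · rw [e]; exact h1
    · exact h2 m e
  have h1 := h.meet (a.symm.trans a1) o le_rfl
  have hl : eEv ⊓ eA i ≤ eS n ⊔ eD i n := by
    refine le_of_mem fun u s w h => ?_
    have h1 : ∑ m, u m = 0 := h.1
    have h2 : ∀ m, m ≠ i → u m = 0 := h.2.1
    have h3 : w = 0 := h.2.2.2
    rw [Finset.sum_eq_single i (fun m _ hm => h2 m hm) (by simp)] at h1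
    have hu : u = 0 := by
      funext m
      by_cases e : m = i
      · rw [e]; exact h1
      · exact h2 m e
    refine AddSubgroup.mem_sup.2 ⟨(0, 0, Pi.single n (s i)), ⟨rfl, rfl, ?_⟩,
      (0, s, Pi.single n (s i)), ⟨rfl, ?_, ?_⟩, ?_⟩
    · cases n <;> simp
    · simp
    · cases n <;> simp
    · simp only [Prod.mk_add_mk, add_zero, zero_add, hu, h3, Prod.mk.injEq, true_and]
      funext m
      exact F_two _
  obtain ⟨s, h2, h3⟩ := h1.split (ok_eS c n) (ok_eD c i n) hl
  obtain ⟨r, h4, h5⟩ := a.perm h2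
  exact ⟨r, h4, s, h5, h2.symm, h3⟩

theorem propagate {i j : P} (hi : i.1 = c ∨ i.1 = c + 1) (hj : j.1 = c ∨ j.1 = c + 1)
    (hn : near i j) (hne : i ≠ j) {n : Bool} {κ : F} {p r q q1 q' q1' : β}
    (hr : R X c (eS n) p r) (a : R X c (eA i) p q) (a1 : R X c (eA i) p q1)
    (a' : R X c (eA j) p q') (a1' : R X c (eA j) p q1')
    (k : R X c (eK i j κ) q q') (k1 : R X c (eK i j κ) q1 q1') (t : Tr X c n r i q q1) :
    Tr X c n r j q' q1' := by
  obtain ⟨s, t1, t2, t3⟩ := t
  obtain ⟨s', u1, u2⟩ := hr.symm.perm a'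
  refine ⟨s', u1, u2, ?_⟩
  have hjj := near_refl j
  have o1 : Ok c (n1 i j) :=
    ok3 hi hj hj hn hjj hn (fun u s w h m a b _ => h.1 m a b)
      (fun u s w h => ⟨by simp, rfl⟩) (fun l a b d => ⟨by simp, rfl⟩)
  have o2 : ∀ ε, Ok c (n2 i j κ ε n) := by
    intro ε
    refine ok3 hi hj hj hn hjj hn (fun u s w h m a b _ => h.1 m a b)
      (fun u s w h => ⟨by simp, by simp, ?_, rfl⟩) (fun l a b d => ⟨by simp, by simp, ?_, rfl⟩)
    · have e : u i = u j := h.2.1
      simp [e, F_two]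
    · simp [a, b]
  have o3 : ∀ {i j : P}, (i.1 = c ∨ i.1 = c + 1) → (j.1 = c ∨ j.1 = c + 1) → near i j → i ≠ j →
      Ok c (n3 i j n) := by
    intro i j hi hj hn hne
    refine ok3 hi hj hj hn (near_refl j) hn (fun u s w h m a b _ => h.1 m a)
      (fun u s w h => ⟨by simp, h.1 j hne.symm, rfl⟩) (fun l a b d => ⟨by simp, ?_, rfl⟩)
    simp [b]
  have lA3 : ∀ {i j : P}, near i j → i ≠ j → eA i ≤ n3 i j n := fun hn hne =>
    le_of_mem fun u s w h => ⟨h.1, h.2.1 _ hne.symm hn, by rw [show w = 0 from h.2.2]; rfl⟩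
  have lS3 : ∀ {i j : P}, eS n ≤ n3 i j n := fun {i j} =>
    le_of_mem fun u s w h => ⟨fun m _ => by rw [show u = 0 from h.1]; rfl,
      by rw [show s = 0 from h.2.1]; rfl, h.2.2⟩
  have lK2 : ∀ ε, eK i j κ ≤ n2 i j κ ε n := fun ε =>
    le_of_mem fun u s w h => ⟨h.1, h.2.1, by
      have e1 : s i + s j = κ * u i := h.2.2.1
      have e2 : w = 0 := h.2.2.2
      show s i + s j + ε * w n = κ * u i
      rw [e2, e1]; simp, by rw [show w = 0 from h.2.2.2]; rfl⟩
  have lS2 : eS n ≤ n2 i j κ 0 n :=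
    le_of_mem fun u s w h => by
      have e1 : u = 0 := h.1
      have e2 : s = 0 := h.2.1
      subst e1 e2
      exact ⟨by simp, by simp, by simp, h.2.2⟩
  have b1 : R X c (n1 i j) s s' :=
    (t1.symm.mono o1 (le_of_mem fun u s w h => ⟨fun m a _ => h.1 m a, h.2.2⟩)).trans
      (u1.mono o1 (le_of_mem fun u s w h => ⟨fun m _ a => h.1 m a, h.2.2⟩))
  have b2 : R X c (n2 i j κ 0 n) s s' :=
    ((t2.mono (o2 0) lS2).trans (k.mono (o2 0) (lK2 0))).trans (u2.symm.mono (o2 0) lS2)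
  have b3 : R X c (eK i j κ) s s' :=
    b1.meet b2 (ok_eK hi hj hn κ) (inf_le_of_mem fun u s w h h' => ⟨h.1, h'.2.1, by
      have e1 : s i + s j + 0 * w n = κ * u i := h'.2.2.1
      simpa using e1, h.2⟩)
  have b4 : R X c (n3 i j n) s q1 :=
    (t2.mono (o3 hi hj hn hne) lS3).trans ((a.symm.trans a1).mono (o3 hi hj hn hne) (lA3 hn hne))
  have b5 : R X c (n2 i j κ 1 n) s q1 :=
    t3.meet b4 (o2 1) (inf_le_of_mem fun u s w h h' => by
      have e1 : u = 0 := h.1
      have e2 : s i = w n := h.2.1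
      have e3 : s j = 0 := h'.2.1
      subst e1
      refine ⟨by simp, by simp, ?_, h.2.2⟩
      show s i + s j + 1 * w n = κ * (0 : U) i
      simp [e2, e3, F_two])
  have b6 : R X c (n2 i j κ 1 n) s' q1' :=
    ((b3.symm.mono (o2 1) (lK2 1)).trans b5).trans (k1.mono (o2 1) (lK2 1))
  have hn' := near_symm _ _ hn
  have b7 : R X c (n3 j i n) s' q1' :=
    (u2.mono (o3 hj hi hn' hne.symm) lS3).trans
      ((a'.symm.trans a1').mono (o3 hj hi hn' hne.symm) (lA3 hn' hne.symm))
  refine b6.meet b7 (ok_eD c j n) (inf_le_of_mem fun u s w h h' => ?_)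
  have e1 : u i = 0 := h'.1 i hne
  have e2 : u i = u j := h.2.1
  have e3 : s i + s j + 1 * w n = κ * u i := h.2.2.1
  have e4 : s i = 0 := h'.2.1
  refine ⟨?_, ?_, h.2.2.2⟩
  · show u = 0
    funext m
    by_cases e : m = j
    · rw [e, ← e2, e1]; rfl
    · exact h'.1 m e
  · show s j = w n
    linear_combination e3 - e4 + κ * e1 - F_two (w n)

theorem commute_aux {i : P} (hi : i.1 = c ∨ i.1 = c + 1) {n : Bool} {r' s s' t y q1 : β}
    (h1 : R X c (eS (!n)) y q1) (h2 : R X c (eD i n) s q1) (h3 : R X c (eS (!n)) s t)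
    (h4 : R X c (eA i) r' y) (h5 : R X c (eA i) r' s') (h6 : R X c (eS n) t s') :
    R X c (eD i n) y t := by
  have o6 : Ok c (n6 i n) := ok_of_zero fun _ _ _ h => h.1
  have hii := near_refl i
  have o7 : Ok c (n7 i n) :=
    ok3 hi hi hi hii hii hii (fun u s w h m a _ _ => h.1 m a)
      (fun u s w h => ⟨by simp, rfl⟩) (fun l a b d => ⟨by simp, rfl⟩)
  have lS6 : eS (!n) ≤ n6 i n := le_of_mem fun u s w h => ⟨h.1, by
    have e1 : s = 0 := h.2.1
    have e2 : w (!(!n)) = 0 := h.2.2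
    rw [Bool.not_not] at e2
    show s i = w n
    rw [e1, e2]; rfl⟩
  have lD6 : eD i n ≤ n6 i n := le_of_mem fun u s w h => ⟨h.1, h.2.1⟩
  have lA7 : eA i ≤ n7 i n := le_of_mem fun u s w h => ⟨h.1, by rw [show w = 0 from h.2.2]; rfl⟩
  have lS7 : eS n ≤ n7 i n := le_of_mem fun u s w h =>
    ⟨fun m _ => by rw [show u = 0 from h.1]; rfl, h.2.2⟩
  have b1 : R X c (n6 i n) y t :=
    ((h1.mono o6 lS6).trans (h2.symm.mono o6 lD6)).trans (h3.mono o6 lS6)
  have b2 : R X c (n7 i n) y t :=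
    ((h4.symm.trans h5).mono o7 lA7).trans (h6.symm.mono o7 lS7)
  exact b1.meet b2 (ok_eD c i n) (inf_le_of_mem fun u s w h h' => ⟨h.1, h.2, h'.2⟩)

theorem commute_tr {i : P} (hi : i.1 = c ∨ i.1 = c + 1) {r r' q q1 q2 o1 o2 : β}
    (t1 : Tr X c false r i q q1) (t2 : Tr X c true r' i q q2)
    (t3 : Tr X c true r' i q1 o1) (t4 : Tr X c false r i q2 o2) : R X c (n8 i) o1 o2 := by
  obtain ⟨s, a1, a2, a3⟩ := t1
  obtain ⟨s', b1, b2, b3⟩ := t2
  obtain ⟨y, c1, c2, c3⟩ := t3
  obtain ⟨y', d1, d2, d3⟩ := t4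
  obtain ⟨t, e1, e2⟩ := a2.perm b2.symm
  have f1 : R X c (eD i false) y t := commute_aux hi c2 a3 e1 c1 b1 e2
  have f2 : R X c (eD i true) y' t := commute_aux hi d2 b3 e2.symm d1 a1 e1.symm
  have o8 : Ok c (n8 i) := ok_of_zero fun _ _ _ h => h.1
  have l8 : ∀ n, eD i n ≤ n8 i := fun n => le_of_mem fun u s w h => ⟨h.1, by
    have e1 : s i = w n := h.2.1
    have e2 : w (!n) = 0 := h.2.2
    show s i = w true + w false
    cases n <;> simp_all⟩
  exact (((c3.symm.mono o8 (l8 _)).trans (f1.mono o8 (l8 _))).trans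
    (f2.symm.mono o8 (l8 _))).trans (d3.mono o8 (l8 _))

theorem eA_le_eAx (i : P) : eA i ≤ eAx i := le_of_mem fun _ _ _ h => h.1

theorem eK_le_eEv {i j : P} (hne : i ≠ j) (κ : F) : eK i j κ ≤ eEv := by
  refine le_of_mem fun u s w h => ?_
  have e : u i = u j := h.2.1
  show ∑ m, u m = 0
  have h1 : ∀ m, m ≠ i → m ≠ j → u m = 0 := h.1
  rw [Finset.sum_eq_add_of_mem i j (by simp) (by simp) hne (fun m _ hm => h1 m hm.1 hm.2), e]
  exact F_two _

theorem clash {i j : P} (hi : i.1 = c ∨ i.1 = c + 1) (hj : j.1 = c ∨ j.1 = c + 1)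
    (hn : near i j) (hne : i ≠ j) {p q o1 o2 : β} (a : R X c (eA i) p q)
    (a1 : R X c (eA j) p o1) (a2 : R X c (eA j) p o2) (k1 : R X c (eK i j 1) q o1)
    (k2 : R X c (eK i j 0) q o2) (h : R X c (n8 j) o1 o2) : R X c eT0 p q := by
  have b1 : R X c (eK i j 0) o1 o2 :=
    h.meet (a1.symm.trans a2) (ok_eK hi hj hn 0) (inf_le_of_mem fun u s w h h' => by
      have e1 : u = 0 := h.1
      have e2 : s j = w true + w false := h.2
      have e3 : w = 0 := h'.2.2
      have e4 : s i = 0 := h'.2.1 i hne (near_symm _ _ hn)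
      subst e1 e3
      refine ⟨by simp, by simp, ?_, rfl⟩
      show s i + s j = 0 * (0 : U) i
      simp [e2, e4])
  have b2 : R X c eT0 q o1 :=
    k1.meet (k2.trans b1.symm) (ok_eT0 c) (inf_le_of_mem fun u s w h h' => by
      have e1 : s i + s j = 1 * u i := h.2.2.1
      have e2 : s i + s j = 0 * u i := h'.2.2.1
      have e3 : u i = u j := h.2.1
      have e4 : u i = 0 := by linear_combination e2 - e1
      show u = 0
      funext m
      by_cases a : m = i
      · rw [a]; exact e4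
      · by_cases b : m = j
        · rw [b, ← e3]; exact e4
        · exact h.1 m a b)
  have b3 : R X c (eAx j) p q :=
    (a1.mono (ok_eAx c j) (eA_le_eAx j)).trans (b2.symm.mono (ok_eAx c j)
      (le_of_mem fun u s w h m _ => by rw [show u = 0 from h]; rfl))
  refine (a.mono (ok_eAx c i) (eA_le_eAx i)).meet b3 (ok_eT0 c)
    (inf_le_of_mem fun u s w h h' => ?_)
  show u = 0
  funext m
  by_cases e : m = i
  · exact h' m (e ▸ hne)
  · exact h m e

end

end Pool.Agent.Work.MP_d893f2_al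
end

-- merged part: Pool.Agent.Work.MP_d893f2_al.Main
section
set_option autoImplicit false

namespace Pool.Agent.Work.MP_d893f2_al

section

variable {β : Type*} {X : RelSys layA layB β}

theorem swA {c c' : ZMod 7} {i : P} (hi : i.1 = c' ∨ i.1 = c' + 1) {p q : β}
    (h : R X c (eA i) p q) : R X c' (eA i) p q := h.switch (ok_eA hi) (ch_eA c c' i)

theorem swS {c c' : ZMod 7} {n : Bool} {p q : β} (h : R X c (eS n) p q) : R X c' (eS n) p q :=
  h.switch (ok_eS c' n) (ch_zero fun _ _ _ h => h.1)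

theorem swD {c c' : ZMod 7} {i : P} {n : Bool} {p q : β} (h : R X c (eD i n) p q) :
    R X c' (eD i n) p q :=
  h.switch (ok_eD c' i n) (ch_zero fun _ _ _ h => h.1)

theorem sw8 {c c' : ZMod 7} {i : P} {p q : β} (h : R X c (n8 i) p q) : R X c' (n8 i) p q :=
  h.switch (ok_of_zero fun _ _ _ h => h.1) (ch_zero fun _ _ _ h => h.1)

theorem swEv {c c' : ZMod 7} {p q : β} (h : R X c eEv p q) : R X c' eEv p q :=
  h.switch (ok_eEv c') (ch_top fun _ _ => by simp [eEv, mem_mkN])

theorem swT0 {c c' : ZMod 7} {p q : β} (h : R X c eT0 p q) : R X c' eT0 p q :=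
  h.switch (ok_eT0 c') (ch_top fun _ _ => by simp [eT0, mem_mkN])

theorem swTr {c c' : ZMod 7} {i : P} (hi : i.1 = c' ∨ i.1 = c' + 1) {n : Bool} {r q q1 : β}
    (h : Tr X c n r i q q1) : Tr X c' n r i q q1 := by
  obtain ⟨s, h1, h2, h3⟩ := h
  exact ⟨s, swA hi h1, swS h2, swD h3⟩

/-- the untwisted chart used for a vertical edge -/
def vc (i : P) : ZMod 7 := if i.1 = 0 then 6 else i.1

theorem vc_ne : ∀ i : P, vc i ≠ 0 := by decide
theorem vc_win : ∀ i : P, (i.1 = vc i ∨ i.1 = vc i + 1) ∧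
    ((i + (0, 1)).1 = vc i ∨ (i + (0, 1)).1 = vc i + 1) := by decide
theorem nearH : ∀ i : P, near i (i + (0, 1)) ∧ i ≠ i + (0, 1) := by decide
theorem nearG : ∀ i : P, near i (i + (1, 0)) ∧ i ≠ i + (1, 0) := by decide
theorem winG : ∀ i : P, (i + (1, 0)).1 = i.1 ∨ (i + (1, 0)).1 = i.1 + 1 := by decide

variable (X) in
/-- vertex relation -/
def GA (i : P) (p q : β) : Prop := R X i.1 (eA i) p q

variable (X) in
/-- horizontal edge relation -/
def RG (i : P) (κ : F) (p q : β) : Prop := R X i.1 (eK i (i + (1, 0)) κ) p q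

variable (X) in
/-- vertical edge relation -/
def RH (i : P) (p q : β) : Prop := R X (vc i) (eK i (i + (0, 1)) 0) p q

variable (X) in
/-- translation relation -/
def GT (n : Bool) (r : β) (i : P) (q q1 : β) : Prop := Tr X i.1 n r i q q1

theorem existG (p : β) (i : P) (q : β) (h : GA X i p q) :
    ∃ q', RG X i 0 q q' ∧ GA X (i + (1, 0)) p q' := by
  obtain ⟨q', h1, h2⟩ := exists_edge (Or.inl rfl) (winG i) (nearG i).1 (nearG i).2 h
  exact ⟨q', h1, swA (Or.inl rfl) h2⟩

theorem existH (p : β) (i : P) (q : β) (h : GA X i p q) :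
    ∃ q', RH X i q q' ∧ GA X (i + (0, 1)) p q' := by
  obtain ⟨q', h1, h2⟩ := exists_edge (vc_win i).1 (vc_win i).2 (nearH i).1 (nearH i).2
    (swA (vc_win i).1 h)
  exact ⟨q', h1, swA (Or.inl rfl) h2⟩

theorem propG {i : P} {n : Bool} {κ : F} {p r q q1 q' q1' : β} (hr : R X 0 (eS n) p r)
    (a : GA X i p q) (a1 : GA X i p q1) (a' : GA X (i + (1, 0)) p q')
    (a1' : GA X (i + (1, 0)) p q1') (k : RG X i κ q q') (k1 : RG X i κ q1 q1')
    (t : GT X n r i q q1) : GT X n r (i + (1, 0)) q' q1' :=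
  swTr (Or.inl rfl) (propagate (Or.inl rfl) (winG i) (nearG i).1 (nearG i).2 (swS hr) a a1
    (swA (winG i) a') (swA (winG i) a1') k k1 t)

theorem propH {i : P} {n : Bool} {p r q q1 q' q1' : β} (hr : R X 0 (eS n) p r)
    (a : GA X i p q) (a1 : GA X i p q1) (a' : GA X (i + (0, 1)) p q')
    (a1' : GA X (i + (0, 1)) p q1') (k : RH X i q q') (k1 : RH X i q1 q1')
    (t : GT X n r i q q1) : GT X n r (i + (0, 1)) q' q1' :=
  swTr (Or.inl rfl) (propagate (vc_win i).1 (vc_win i).2 (nearH i).1 (nearH i).2 (swS hr)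
    (swA (vc_win i).1 a) (swA (vc_win i).1 a1) (swA (vc_win i).2 a') (swA (vc_win i).2 a1') k k1
    (swTr (vc_win i).1 t))

theorem sq_facts : ∀ i : P,
    ((i + (0, 1)).1 = i.1 ∧ ((i + (1, 0) + (0, 1)).1 = i.1 ∨ (i + (1, 0) + (0, 1)).1 = i.1 + 1)) ∧
    (near (i + (0, 1)) (i + (1, 0)) ∧ near (i + (0, 1)) (i + (1, 0) + (0, 1))) ∧
    (i + (0, 1) ≠ i + (1, 0) ∧ i + (0, 1) ≠ i + (1, 0) + (0, 1)) ∧
    (twist i.1 i = 0 ∧ i + (0, 1) + (1, 0) = i + (1, 0) + (0, 1)) := by decide

theorem square {i : P} {p qi qj qk ql : β} (ai : GA X i p qi) (aj : GA X (i + (1, 0)) p qj)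
    (ak : GA X (i + (1, 0) + (0, 1)) p qk) (al : GA X (i + (0, 1)) p ql)
    (h1 : RG X i 0 qi qj) (h2 : RH X (i + (1, 0)) qj qk) (h3 : RH X i qi ql) :
    RG X (i + (0, 1)) (twist i.1 (i + (1, 0))) ql qk := by
  obtain ⟨⟨w1, w2⟩, ⟨n1, n2⟩, ⟨d1, d2⟩, t0, e⟩ := sq_facts i
  have wl : (i + (0, 1)).1 = i.1 ∨ (i + (0, 1)).1 = i.1 + 1 := Or.inl w1
  have wi : i.1 = i.1 ∨ i.1 = i.1 + 1 := Or.inl rfl
  have k2 := R.switch h2 (ok_eK (winG i) w2 (nearH _).1 _) (ch_eK_vert i.1 (vc_ne _) _ 0)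
  have k3 := R.switch h3 (ok_eK wi wl (nearH _).1 _) (ch_eK_vert i.1 (vc_ne _) _ 0)
  rw [t0, add_zero] at k3
  rw [zero_add] at k2
  have k4 := k3.symm.mono (ok_eK wl wi (near_symm _ _ (nearH i).1) 0) (eK_symm _ _ _)
  have aj' := swA (winG i) aj
  have ak' := swA w2 ak
  have al' := swA wl al
  have k5 := triangle wl wi (winG i) (near_symm _ _ (nearH i).1) (nearG i).1 n1 (nearH i).2.symm
    (nearG i).2 d1 al' ai aj' k4 h1
  have k6 := triangle wl (winG i) w2 n1 (nearH _).1 n2 d1 (nearH _).2 d2 al' aj' ak' k5 k2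
  rw [add_zero, zero_add] at k6
  unfold RG
  rw [w1, e]
  exact k6

/-- unrolled coordinates on the torus -/
def idx (a b : ℕ) : P := (((1 + a : ℕ) : ZMod 7), ((1 + b : ℕ) : ZMod 4))

theorem idx_a (a b : ℕ) : idx (a + 1) b = idx a b + (1, 0) := by
  simp only [idx, Prod.mk_add_mk, add_zero, Prod.mk.injEq, and_true]
  push_cast; ring

theorem idx_b (a b : ℕ) : idx a (b + 1) = idx a b + (0, 1) := by
  simp only [idx, Prod.mk_add_mk, add_zero, Prod.mk.injEq, true_and]
  push_cast; ring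

theorem idx_four (a : ℕ) : idx a 4 = idx a 0 := by
  simp only [idx, Prod.mk.injEq, true_and]
  decide

theorem idx_seven (b : ℕ) : idx 7 b = idx 0 b := by
  simp only [idx, Prod.mk.injEq, and_true]
  decide

theorem collapse {p q0 : β} (h0 : GA X (idx 0 0) p q0) : R X 0 eT0 p q0 := by
  have : Nonempty β := ⟨p⟩
  choose! gs hgs using existG (X := X) p
  choose! hs hhs using existH (X := X) p
  let row0 : ℕ → β := fun a => Nat.rec q0 (fun a x => gs (idx a 0) x) a
  let f : ℕ → ℕ → β := fun a b => Nat.rec (row0 a) (fun b x => hs (idx a b) x) b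
  have f00 : f 0 0 = q0 := rfl
  have fa : ∀ a, f (a + 1) 0 = gs (idx a 0) (f a 0) := fun _ => rfl
  have fb : ∀ a b, f a (b + 1) = hs (idx a b) (f a b) := fun _ _ => rfl
  have A0 : ∀ a, GA X (idx a 0) p (f a 0) := by
    intro a
    induction a with
    | zero => exact h0
    | succ a ih => rw [fa, idx_a]; exact (hgs _ _ ih).2
  have A : ∀ a b, GA X (idx a b) p (f a b) := by
    intro a b
    induction b with
    | zero => exact A0 a
    | succ b ih => rw [fb, idx_b]; exact (hhs _ _ ih).2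
  have H : ∀ a b, RH X (idx a b) (f a b) (f a (b + 1)) := fun a b => (hhs _ _ (A a b)).1
  have G0 : ∀ a, RG X (idx a 0) 0 (f a 0) (f (a + 1) 0) := fun a => (hgs _ _ (A0 a)).1
  have Aa : ∀ a b, GA X (idx a b + (1, 0)) p (f (a + 1) b) := fun a b => idx_a a b ▸ A (a + 1) b
  have Ab : ∀ a b, GA X (idx a b + (0, 1)) p (f a (b + 1)) := fun a b => idx_b a b ▸ A a (b + 1)
  have Gs : ∀ a b, RG X (idx a b) 0 (f a b) (f (a + 1) b) →
      RG X (idx a (b + 1)) (twist (idx a b).1 (idx a b + (1, 0))) (f a (b + 1))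
        (f (a + 1) (b + 1)) := by
    intro a b h
    rw [idx_b]
    refine square (A a b) (Aa a b) ?_ (Ab a b) h ?_ (H a b)
    · rw [← idx_a]; exact Ab (a + 1) b
    · rw [← idx_a]; exact H (a + 1) b
  have tw : ∀ a ≤ 6, ∀ b ≤ 3, (a ≤ 5 ∨ b ≤ 2) → twist (idx a b).1 (idx a b + (1, 0)) = 0 := by
    decide
  have tw1 : twist (idx 6 3).1 (idx 6 3 + (1, 0)) = 1 := by decide
  have Gb : ∀ a ≤ 6, ∀ b ≤ 4, (a ≤ 5 ∨ b ≤ 3) → RG X (idx a b) 0 (f a b) (f (a + 1) b) := by
    intro a ha b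
    induction b with
    | zero => intro _ _; exact G0 a
    | succ b ih =>
      intro hb hab
      have := Gs a b (ih (by omega) (by omega))
      rwa [tw a ha b (by omega) (by omega)] at this
  have Glast : RG X (idx 6 4) 1 (f 6 4) (f 7 4) := by
    have := Gs 6 3 (Gb 6 le_rfl 3 (by omega) (by omega))
    rwa [tw1] at this
  have r00 : R X 0 eEv q0 q0 := by
    have h1 := R.mono (G0 0) (ok_eEv _) (eK_le_eEv (nearG _).2 0)
    exact swEv (h1.trans h1.symm)
  have Ev0 : ∀ a, R X 0 eEv q0 (f a 0) := by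
    intro a
    induction a with
    | zero => exact r00
    | succ a ih => exact ih.trans (swEv (R.mono (G0 a) (ok_eEv _) (eK_le_eEv (nearG _).2 0)))
  have Ev : ∀ a b, R X 0 eEv q0 (f a b) := by
    intro a b
    induction b with
    | zero => exact Ev0 a
    | succ b ih => exact ih.trans (swEv (R.mono (H a b) (ok_eEv _) (eK_le_eEv (nearH _).2 0)))
  have A4 : ∀ a, GA X (idx a 0) p (f a 4) := fun a => idx_four a ▸ A a 4
  have A7 : ∀ b, GA X (idx 0 b) p (f 7 b) := fun b => idx_seven b ▸ A 7 b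
  obtain ⟨r, hr, t⟩ := exists_tr (c := (idx 0 0).1) false (A 0 0) (A4 0) (swEv (Ev 0 4))
  obtain ⟨r', hr', t'⟩ := exists_tr (c := (idx 0 0).1) true (A 0 0) (A7 0) (swEv (Ev 7 0))
  have T1 : ∀ a ≤ 6, GT X false r (idx a 0) (f a 0) (f a 4) := by
    intro a
    induction a with
    | zero => intro _; exact t
    | succ a ih =>
      intro ha
      rw [idx_a]
      refine propG (swS hr) (A a 0) (A4 a) (Aa a 0) (idx_a a 0 ▸ A4 (a + 1)) (G0 a) ?_
        (ih (by omega))
      rw [← idx_four]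
      exact Gb a (by omega) 4 le_rfl (by omega)
  have T2 : ∀ b, GT X true r' (idx 0 b) (f 0 b) (f 7 b) := by
    intro b
    induction b with
    | zero => exact t'
    | succ b ih =>
      rw [idx_b]
      refine propH (swS hr') (A 0 b) (A7 b) (Ab 0 b) (idx_b 0 b ▸ A7 (b + 1)) (H 0 b) ?_ ih
      rw [← idx_seven]
      exact H 7 b
  obtain ⟨g1, g2⟩ := hgs _ _ (A4 6)
  have T3 := propG (swS hr) (A 6 0) (A4 6) (Aa 6 0) g2 (G0 6) g1 (T1 6 le_rfl)
  have e7 : idx 6 0 + (1, 0) = idx 0 0 := by decide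
  have T4 := T2 4
  rw [idx_four] at T4
  rw [idx_four] at Glast
  have T3' : GT X false r (idx 0 0) (f 7 0) (gs (idx 6 0) (f 6 4)) := e7 ▸ T3
  have c8 := commute_tr (Or.inl rfl) t t' T4 T3'
  have a74 : GA X (idx 6 0 + (1, 0)) p (f 7 4) := by
    rw [e7, ← idx_seven]; exact A4 7
  have c9 : R X (idx 6 0).1 (n8 (idx 6 0 + (1, 0))) (f 7 4) (gs (idx 6 0) (f 6 4)) := by
    rw [e7]; exact sw8 c8
  have z := clash (Or.inl rfl) (winG _) (nearG _).1 (nearG _).2 (A4 6) (swA (winG _) a74)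
    (swA (winG _) g2) Glast g1 c9
  have z1 : R X 0 eEv p q0 :=
    ((swT0 z).mono (ok_eEv 0) (le_of_mem fun u s w h => by
      show ∑ m, u m = 0
      rw [show u = 0 from h]; simp)).trans (Ev 6 4).symm
  refine z1.meet (swA (c' := 0) (by decide) h0) (ok_eT0 0) (inf_le_of_mem fun u s w h h' => ?_)
  have h1 : ∑ m, u m = 0 := h
  have h2 : ∀ m, m ≠ idx 0 0 → u m = 0 := h'.1
  rw [Finset.sum_eq_single (idx 0 0) (fun m _ hm => h2 m hm) (by simp)] at h1
  show u = 0
  funext m
  by_cases e : m = idx 0 0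
  · rw [e]; exact h1
  · exact h2 m e

end

theorem no_relSys (β : Type*) (X : RelSys layA layB β) : False := by
  have hn : ¬ ch (idx 0 0).1 (eA (idx 0 0)) ≤ sat layB (ch 0 eT0) := by
    intro h
    have h1 : ((Pi.single (idx 0 0) 1, 0, 0) : G) ∈ eA (idx 0 0) :=
      ⟨fun m hm => by simp [hm], fun _ _ _ => rfl, rfl⟩
    obtain ⟨w, -, ⟨s, t⟩, h3, -⟩ := mem_sat.1 (h (iota_mem_chart h1))
    have h4 : (Pi.single (idx 0 0) 1 : U) = 0 := h3
    have := congrFun h4 (idx 0 0)
    simp at this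
  obtain ⟨p, q, h1, h2⟩ := X.sep (ok_eA (Or.inl rfl)) (ok_eT0 0) hn
  exact h2 (collapse h1)

theorem main :
    ¬ (∀ (L M : Type) [Lattice L] [Lattice M] (g : LatticeHom L M),
      Function.Surjective g →
      (∃ (α : Type) (f : LatticeHom L (Setoid α)), Function.Injective f ∧
        ∀ (x y : L) (a b : α),
          (∃ c : α, (f x).r a c ∧ (f y).r c b) ↔ (∃ c : α, (f y).r a c ∧ (f x).r c b)) →
      (∃ (β : Type) (h : LatticeHom M (Setoid β)), Function.Injective h ∧
        ∀ (x y : M) (a b : β),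
          (∃ c : β, (h x).r a c ∧ (h y).r c b) ↔ (∃ c : β, (h y).r a c ∧ (h x).r c b))) := by
  intro H
  obtain ⟨β, h, hinj, hc⟩ := H (LL layA layB) (MM layA layB) (quotM layA layB)
    (quotM_surj layA layB) ⟨_, repL layA layB, repL_inj layA layB, fun x y a b =>
      ⟨cosetRel_comm x.1 y.1 a b, cosetRel_comm y.1 x.1 a b⟩⟩
  obtain ⟨X⟩ := exists_relSys layA layB β h hinj hc
  exact no_relSys β X

end Pool.Agent.Work.MP_d893f2_al
end
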